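import Mathlib

open Filter Topology

namespace Pool.Agent.MP_14ad8d_gt.Sq

/-- For every sequence of nonempty open sets one can choose points, one in each set, so that the
sequence of chosen points has an accumulation point. -/
def SelectivelyPseudocompact (X : Type) [TopologicalSpace X] : Prop :=
  ∀ U : ℕ → Set X, (∀ n, IsOpen (U n) ∧ (U n).Nonempty) →
    ∃ x : ℕ → X, (∀ n, x n ∈ U n) ∧ ∃ y : X, MapClusterPt y atTop x

/-- For every sequence of nonempty open sets one can choose points, one in each set, so that the
sequence of chosen points has a `p`-limit. -/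
def StronglyPseudocompact (p : Ultrafilter ℕ) (X : Type) [TopologicalSpace X] : Prop :=
  ∀ U : ℕ → Set X, (∀ n, IsOpen (U n) ∧ (U n).Nonempty) →
    ∃ x : ℕ → X, (∀ n, x n ∈ U n) ∧ ∃ y : X, Tendsto x (p : Filter ℕ) (𝓝 y)

end Pool.Agent.MP_14ad8d_gt.Sq
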