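import Pool.Agent.MP_14ad8d_gt.Sq.Lin

/-!
The group generated by iterated ultrafilter limits inside the Bohr compactification of the
countable Boolean group.
-/

open Filter Topology Cardinal

namespace Pool.Agent.MP_14ad8d_gt.Sq

/-- The limit of an `F2`-valued sequence along an ultrafilter. -/
noncomputable def ulim (q : Ultrafilter ℕ) (f : ℕ → F2) : F2 := by
  classical exact if ∀ᶠ n in (q : Filter ℕ), f n = 0 then 0 else 1

lemma ev_ulim (q : Ultrafilter ℕ) (f : ℕ → F2) : ∀ᶠ n in (q : Filter ℕ), f n = ulim q f := by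
  unfold ulim
  split_ifs with h
  · exact h
  · have h' : ∀ᶠ n in (q : Filter ℕ), ¬ f n = 0 := Ultrafilter.eventually_not.2 h
    filter_upwards [h'] with n hn
    exact (F2_cases (f n)).resolve_left hn

lemma ulim_eq {q : Ultrafilter ℕ} {f : ℕ → F2} {a : F2}
    (h : ∀ᶠ n in (q : Filter ℕ), f n = a) : ulim q f = a := by
  obtain ⟨n, h1, h2⟩ := ((ev_ulim q f).and h).exists
  rw [← h1, h2]

/-- Terms: generators, sums and limits of sequences of tuples. -/
inductive Tm (k : ℕ) : Type
  | base (n : ℕ) : Tm k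
  | add (a b : Tm k) : Tm k
  | lim (i : Fin k) (s : ℕ → Fin k → Tm k) : Tm k

variable {k : ℕ}

/-- A code of a term. -/
def Tm.code : Tm k → List (ℕ × ℕ) → ℕ × ℕ
  | Tm.base n, _ => (0, n)
  | Tm.add _ _, [] => (1, 0)
  | Tm.add a b, x :: l => if x.1 = 0 then a.code l else b.code l
  | Tm.lim i _, [] => (2, i)
  | Tm.lim _ s, x :: l => if h : x.2 < k then (s x.1 ⟨x.2, h⟩).code l else (0, 0)

lemma Tm.code_injective : Function.Injective (Tm.code (k := k)) := by
  intro a
  induction a with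
  | base n =>
    intro b h
    have h0 := congrFun h []
    cases b <;> simp [Tm.code] at h0 ⊢
    exact h0
  | add a a' ih ih' =>
    intro b h
    have h0 := congrFun h []
    cases b with
    | base n => simp [Tm.code] at h0
    | add b b' =>
      have e1 : a = b := ih (funext fun l => by simpa [Tm.code] using congrFun h ((0, 0) :: l))
      have e2 : a' = b' := ih' (funext fun l => by simpa [Tm.code] using congrFun h ((1, 0) :: l))
      rw [e1, e2]
    | lim i s => simp [Tm.code] at h0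
  | lim i s ih =>
    intro b h
    have h0 := congrFun h []
    cases b with
    | base n => simp [Tm.code] at h0
    | add b b' => simp [Tm.code] at h0
    | lim j t =>
      have e1 : i = j := Fin.ext (by simpa [Tm.code] using h0)
      have e2 : s = t := funext fun m => funext fun x => ih m x (funext fun l => by
        simpa [Tm.code] using congrFun h ((m, x.1) :: l))
      rw [e1, e2]

lemma card_seq : #(ℕ → Fin k → Tm k) ≤ #T := by
  have h1 : #(Tm k) ≤ 𝔠 := (mk_le_of_injective Tm.code_injective).trans (by simp)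
  have h2 : #(Fin k → Tm k) ≤ 𝔠 := by
    rw [← power_def, ← continuum_power_aleph0]
    exact (power_le_power_right h1).trans (power_le_power_left continuum_ne_zero mk_le_aleph0)
  rw [card_T, ← power_def, mk_nat, ← continuum_power_aleph0]
  exact power_le_power_right h2

/-- The image of a term in the Cantor group. -/
noncomputable def Tm.pi : Tm k → C
  | Tm.base n => Pi.single n 1
  | Tm.add a b => a.pi + b.pi
  | Tm.lim i s => (exists_sub fun m j => (s m j).pi).choose.1 i

/-- The chosen limit. -/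
noncomputable def lm (s : ℕ → Fin k → Tm k) : Fin k → C :=
  (exists_sub fun m j => (s m j).pi).choose.1

/-- The chosen subsequence. -/
noncomputable def sq (s : ℕ → Fin k → Tm k) : ℕ → ℕ :=
  (exists_sub fun m j => (s m j).pi).choose.2.1

/-- The chosen positions. -/
noncomputable def ps (s : ℕ → Fin k → Tm k) : Fin k → ℕ → ℕ :=
  (exists_sub fun m j => (s m j).pi).choose.2.2

lemma isSub (s : ℕ → Fin k → Tm k) : IsSub (fun m j => (s m j).pi) (lm s) (sq s) (ps s) :=
  (exists_sub fun m j => (s m j).pi).choose_spec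

lemma exists_uf : ∃ q : (ℕ → Fin k → Tm k) → Ultrafilter ℕ, (∀ s, (q s : Filter ℕ) ≤ cofinite) ∧
    ∀ D : Set (ℕ → Fin k → Tm k), D.Countable → ∃ N : (ℕ → Fin k → Tm k) → Set ℕ,
      (∀ s ∈ D, N s ∈ q s) ∧ ∀ s ∈ D, ∀ s' ∈ D, s ≠ s' → ∀ m ∈ N s, ∀ m' ∈ N s', ∀ i j,
        ps s i m / (k + 1) ≠ ps s' j m' / (k + 1) :=
  exists_select card_seq (fun s i m => ps s i m / (k + 1))
    fun s i m m' h => (isSub s).2.2.1 i i m m' h

/-- The chosen ultrafilters. -/
noncomputable def uf (s : ℕ → Fin k → Tm k) : Ultrafilter ℕ := exists_uf.choose s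

/-- The value of a term at a character. -/
noncomputable def Tm.val : Tm k → C → F2
  | Tm.base n, c => c n
  | Tm.add a b, c => a.val c + b.val c
  | Tm.lim i s, c => ulim (uf s) fun m => (s (sq s m) i).val c

/-- The sequences occurring in a term. -/
def Tm.sub : Tm k → Set (ℕ → Fin k → Tm k)
  | Tm.base _ => ∅
  | Tm.add a b => a.sub ∪ b.sub
  | Tm.lim _ s => insert s (⋃ m, ⋃ j, (s m j).sub)

lemma Tm.sub_countable (a : Tm k) : a.sub.Countable := by
  induction a with
  | base n => exact Set.countable_empty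
  | add a b iha ihb => exact iha.union ihb
  | lim i s ih =>
    exact (Set.countable_iUnion fun m => Set.countable_iUnion fun j => ih m j).insert s

lemma Tm.val_eq (F : C →ₗ[F2] F2) (a : Tm k)
    (h : ∀ s ∈ a.sub, ∀ i, ∀ᶠ m in (uf s : Filter ℕ), F (s (sq s m) i).pi = F (lm s i)) :
    a.val (fun n => F (Pi.single n 1)) = F a.pi := by
  induction a with
  | base n => rfl
  | add a b iha ihb =>
    simp only [Tm.val, Tm.pi, map_add]
    rw [iha fun s hs => h s (Or.inl hs), ihb fun s hs => h s (Or.inr hs)]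
  | lim i s ih =>
    refine ulim_eq ?_
    filter_upwards [h s (Or.inl rfl) i] with m hm
    rw [ih _ _ fun s' hs' => h s' (Or.inr (Set.mem_iUnion₂.2 ⟨_, _, hs'⟩))]
    exact hm

/-- The coordinate characters. -/
def dl (j : ℕ) : C := fun n => (Pi.single n 1 : C) j

lemma Tm.val_dl (a : Tm k) (j : ℕ) : a.val (dl j) = a.pi j :=
  a.val_eq (LinearMap.proj j) fun s _ i =>
    (exists_uf.choose_spec.1 s) ((isSub s).2.1 i j)

/-- The key lemma: a triangular sequence of terms is seen in every block by one character. -/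
lemma exists_char (z : ℕ → Tm k) (hz : ∀ n, Fst (z n).pi n) :
    ∃ c : C, ∀ b, ∃ i : Fin (k + 1), (z (b * (k + 1) + i)).val c = 1 := by
  classical
  let D : Set (ℕ → Fin k → Tm k) := ⋃ n, (z n).sub
  obtain ⟨N, hN, hdis⟩ := exists_uf.choose_spec.2 D (Set.countable_iUnion fun n => (z n).sub_countable)
  let ι : Type := {x : (ℕ → Fin k → Tm k) × ℕ // x.1 ∈ D ∧ x.2 ∈ N x.1}
  let W : ι → Submodule F2 C := fun x =>
    Submodule.span F2 (Set.range fun i => (x.1.1 (sq x.1.1 x.1.2) i).pi - lm x.1.1 i)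
  have hps : ∀ x : ι, ∀ v ∈ W x, ∀ n, Fst v n → ∃ i, ps x.1.1 i x.1.2 = n :=
    fun x => (isSub x.1.1).2.2.2 x.1.2
  have huniq : ∀ (x y : ι) i j, ps x.1.1 i x.1.2 / (k + 1) = ps y.1.1 j y.1.2 / (k + 1) → x = y := by
    rintro ⟨⟨s, m⟩, hs, hm⟩ ⟨⟨s', m'⟩, hs', hm'⟩ i j h
    have e : s = s' := by
      by_contra hne
      exact hdis s hs s' hs' hne m hm m' hm' i j h
    subst e
    have e' : m = m' := (isSub s).2.2.1 i j m m' h
    subst e'
    rfl
  let E : Set ℕ := {n | ∃ x : ι, ∃ i, ps x.1.1 i x.1.2 = n}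
  obtain ⟨F, hF0, hF1⟩ := exists_functional (⨆ x, W x) E (fun v hv n hn => by
    obtain ⟨x, u, hu, hun⟩ := fst_iSup W (fun x y v hv u hu n hvn hun => by
      obtain ⟨i, hi⟩ := hps x v hv n hvn
      obtain ⟨j, hj⟩ := hps y u hu n hun
      exact huniq x y i j (by rw [hi, hj])) v hv n hn
    exact ⟨x, hps x u hu n hun⟩) (fun n => (z n).pi) hz
  refine ⟨fun n => F (Pi.single n 1), fun b => ?_⟩
  have hex : ∃ i : Fin (k + 1), b * (k + 1) + i ∉ E := by
    by_contra h
    push Not at h
    choose x j hx using h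
    have hb : ∀ i, ps (x i).1.1 (j i) (x i).1.2 / (k + 1) = b := fun i => by
      rw [hx i, mul_comm, Nat.mul_add_div (Nat.succ_pos k), Nat.div_eq_of_lt i.2, add_zero]
    have hj : Function.Injective j := fun i i' e => by
      have e1 : x i = x i' := huniq _ _ (j i) (j i') (by rw [hb, hb])
      have e2 := hx i
      rw [e1, e, hx i'] at e2
      exact Fin.ext (by omega)
    simpa using Fintype.card_le_of_injective j hj
  obtain ⟨i, hi⟩ := hex
  refine ⟨i, ?_⟩
  rw [Tm.val_eq F _ fun s hs j => ?_, hF1 _ hi]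
  have hsD : s ∈ D := Set.mem_iUnion.2 ⟨_, hs⟩
  filter_upwards [hN s hsD] with m hm
  have := hF0 _ (Submodule.mem_iSup_of_mem (⟨(s, m), hsD, hm⟩ : ι)
    (Submodule.subset_span (Set.mem_range_self j)))
  rwa [map_sub, sub_eq_zero] at this

/-- The group of values of terms. -/
def Grp (k : ℕ) : AddSubgroup (C → F2) where
  carrier := Set.range (Tm.val (k := k))
  zero_mem' := ⟨Tm.add (Tm.base 0) (Tm.base 0), funext fun c => CharTwo.add_self_eq_zero _⟩
  add_mem' := by
    rintro _ _ ⟨a, rfl⟩ ⟨b, rfl⟩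
    exact ⟨Tm.add a b, rfl⟩
  neg_mem' := by
    rintro _ ⟨a, rfl⟩
    exact ⟨a, funext fun c => (ZMod.neg_eq_self_mod_two _).symm⟩

lemma Grp.add_self (g : Grp k) : g + g = 0 :=
  Subtype.ext (funext fun c => CharTwo.add_self_eq_zero (g.1 c))

lemma countablyCompact : CountablyCompactSpace (Fin k → Grp k) := by
  refine ⟨IsCountablyCompact.of_seq_clusterPt fun x _ => ?_⟩
  choose s hs using fun m i => (x m i).2
  refine ⟨fun i => ⟨(Tm.lim i s).val, _, rfl⟩, Set.mem_univ _, ?_⟩
  have ht : Tendsto (x ∘ sq s) (uf s : Filter ℕ)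
      (𝓝 fun i => (⟨(Tm.lim i s).val, _, rfl⟩ : Grp k)) := by
    refine tendsto_pi_nhds.2 fun i => tendsto_subtype_rng.2 (tendsto_pi_nhds.2 fun c => ?_)
    rw [nhds_discrete, tendsto_pure]
    filter_upwards [ev_ulim (uf s) fun m => (s (sq s m) i).val c] with m hm
    rw [hs] at hm
    exact hm
  have hφ : Tendsto (sq s) (uf s : Filter ℕ) atTop := by
    rw [← Nat.cofinite_eq_atTop]
    exact (isSub s).1.tendsto_cofinite.mono_left (exists_uf.choose_spec.1 s)
  exact MapClusterPt.of_comp hφ ht.mapClusterPt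

/-- The open sets without an accumulating selection. -/
def Op (k n : ℕ) : Set (Grp k) := {g | Fst (fun j => g.1 (dl j)) n}

lemma continuous_ev (c : C) : Continuous fun g : Grp k => g.1 c :=
  (continuous_apply c).comp continuous_subtype_val

lemma isOpen_Op (n : ℕ) : IsOpen (Op k n) := by
  have : Op k n = {g : Grp k | g.1 (dl n) = 1} ∩ ⋂ j ∈ Set.Iio n, {g : Grp k | g.1 (dl j) = 0} := by
    ext g
    simp [Op, Fst]
  rw [this]
  exact ((isOpen_discrete {(1 : F2)}).preimage (continuous_ev _)).inter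
    ((Set.finite_Iio n).isOpen_biInter fun j _ =>
      (isOpen_discrete {(0 : F2)}).preimage (continuous_ev _))

lemma base_mem_Op (n : ℕ) : (⟨(Tm.base n).val, _, rfl⟩ : Grp k) ∈ Op k n :=
  ⟨by simp [Tm.val, dl], fun j hj => by simp [Tm.val, dl, hj.ne]⟩

lemma no_cluster (x : ℕ → Fin (k + 1) → Grp k)
    (hx : ∀ (n : ℕ) (i : Fin (k + 1)), x n i ∈ Op k (n * (k + 1) + i))
    (y : Fin (k + 1) → Grp k) : ¬ MapClusterPt y atTop x := by
  intro hy
  have hfr : ∀ c : C, ∃ᶠ n in atTop, ∀ i, (x n i).1 c = (y i).1 c := by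
    intro c
    refine (mapClusterPt_iff_frequently.1 hy) {g | ∀ i, (g i).1 c = (y i).1 c} ?_
    refine eventually_all.2 fun i => ?_
    have := ((continuous_ev c).comp (continuous_apply i)).tendsto y
    rwa [nhds_discrete F2, tendsto_pure] at this
  have hy0 : ∀ i j, (y i).1 (dl j) = 0 := by
    intro i j
    obtain ⟨n, h1, h2⟩ := ((hfr (dl j)).and_eventually (eventually_gt_atTop j)).exists
    rw [← h1 i]
    exact (hx n i).2 j (by nlinarith)
  choose z hz using fun (n : ℕ) (i : Fin (k + 1)) => (x n i + y i).2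
  have hzF : ∀ (n : ℕ) (i : Fin (k + 1)), Fst (z n i).pi (n * (k + 1) + i) := by
    intro n i
    have : (z n i).pi = fun j => (x n i).1 (dl j) := funext fun j => by
      rw [← Tm.val_dl, hz]
      simp [hy0]
    rw [this]
    exact hx n i
  obtain ⟨c, hc⟩ := exists_char (fun n => z (n / (k + 1)) ⟨n % (k + 1), Nat.mod_lt _ k.succ_pos⟩)
    (fun n => by
      have := hzF (n / (k + 1)) ⟨n % (k + 1), Nat.mod_lt _ k.succ_pos⟩
      rwa [Nat.div_add_mod'] at this)
  obtain ⟨n, hn⟩ := (hfr c).exists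
  obtain ⟨i, hi⟩ := hc n
  have e1 : (n * (k + 1) + i) / (k + 1) = n := by
    rw [mul_comm, Nat.mul_add_div (Nat.succ_pos k), Nat.div_eq_of_lt i.2, add_zero]
  have e2 : (n * (k + 1) + i) % (k + 1) = i := by
    rw [mul_comm, Nat.mul_add_mod, Nat.mod_eq_of_lt i.2]
  simp only [e1, e2, Fin.eta] at hi
  rw [hz] at hi
  have : (x n i).1 c + (y i).1 c = 1 := hi
  rw [hn i, CharTwo.add_self_eq_zero] at this
  exact absurd this (by decide)

end Pool.Agent.MP_14ad8d_gt.Sq
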