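import Pool.Agent.MP_14ad8d_gt.Sq.Select

/-!
Linear algebra in the Cantor group: vectors with different first nonzero positions.
-/

open Filter Topology Cardinal

namespace Pool.Agent.MP_14ad8d_gt.Sq

/-- The field with two elements. -/
abbrev F2 : Type := ZMod 2

/-- The Cantor group. -/
abbrev C : Type := ℕ → F2

lemma F2_cases (a : F2) : a = 0 ∨ a = 1 := by
  revert a; decide

/-- The first nonzero position of `v` is `n`. -/
def Fst (v : C) (n : ℕ) : Prop := v n = 1 ∧ ∀ j < n, v j = 0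

lemma Fst.unique {v : C} {n m : ℕ} (hn : Fst v n) (hm : Fst v m) : n = m := by
  rcases lt_trichotomy n m with h | h | h
  · exact absurd (hn.1.symm.trans (hm.2 n h)) (by decide)
  · exact h
  · exact absurd (hm.1.symm.trans (hn.2 m h)) (by decide)

lemma exists_fst {v : C} (hv : v ≠ 0) : ∃ n, Fst v n := by
  classical
  have h : ∃ n, v n ≠ 0 := Function.ne_iff.1 hv
  refine ⟨Nat.find h, (F2_cases _).resolve_left (Nat.find_spec h), fun j hj => ?_⟩
  simpa using Nat.find_min h hj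

lemma not_fst_zero (n : ℕ) : ¬ Fst 0 n := fun h => absurd h.1 (by simp)

lemma fst_sum {ι : Type} (s : Finset ι) (hs : s.Nonempty) (v : ι → C) (m : ι → ℕ)
    (hm : Set.InjOn m s) (hv : ∀ i ∈ s, Fst (v i) (m i)) :
    ∃ i ∈ s, Fst (∑ j ∈ s, v j) (m i) := by
  obtain ⟨i, hi, hmin⟩ := s.exists_min_image m hs
  refine ⟨i, hi, ?_, fun j hj => ?_⟩
  · rw [Finset.sum_apply, Finset.sum_eq_single i]
    · exact (hv i hi).1
    · exact fun j hj hji => (hv j hj).2 _ (lt_of_le_of_ne (hmin j hj) fun h => hji (hm hi hj h).symm)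
    · exact fun h => absurd hi h
  · rw [Finset.sum_apply]
    exact Finset.sum_eq_zero fun l hl => (hv l hl).2 j (hj.trans_le (hmin l hl))

lemma indep_mod (W : Submodule F2 C) (E : Set ℕ) (hW : ∀ v ∈ W, ∀ n, Fst v n → n ∈ E) {ι : Type}
    (z : ι → C) (m : ι → ℕ) (hm : Function.Injective m) (hz : ∀ i, Fst (z i) (m i))
    (hE : ∀ i, m i ∉ E) : LinearIndependent F2 (W.mkQ ∘ z) := by
  classical
  rw [linearIndependent_iff']
  intro s g hs i hi
  by_contra hgi
  have hne : (s.filter fun j => g j ≠ 0).Nonempty := ⟨i, Finset.mem_filter.2 ⟨hi, hgi⟩⟩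
  obtain ⟨j, -, hj⟩ := fst_sum _ hne z m hm.injOn fun j _ => hz j
  refine hE j (hW _ ?_ _ hj)
  rw [← Submodule.Quotient.mk_eq_zero, ← Submodule.mkQ_apply, map_sum, Finset.sum_filter]
  refine Eq.trans (Finset.sum_congr rfl fun l _ => ?_) hs
  rcases F2_cases (g l) with h | h <;> simp [h]

lemma exists_functional (W : Submodule F2 C) (E : Set ℕ) (hW : ∀ v ∈ W, ∀ n, Fst v n → n ∈ E)
    (z : ℕ → C) (hz : ∀ n, Fst (z n) n) :
    ∃ F : C →ₗ[F2] F2, (∀ v ∈ W, F v = 0) ∧ ∀ n ∉ E, F (z n) = 1 := by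
  classical
  have hli := indep_mod W E hW (fun n : {n // n ∉ E} => z n.1) Subtype.val Subtype.val_injective
    (fun n => hz n.1) fun n => n.2
  obtain ⟨F, hF⟩ := LinearMap.exists_extend ((Module.Basis.span hli).constr F2 (fun _ => (1 : F2)))
  refine ⟨F.comp W.mkQ, fun v hv => ?_, fun n hn => ?_⟩
  · simp [(Submodule.Quotient.mk_eq_zero W).2 hv]
  · have := congrArg (fun f => f (Module.Basis.span hli ⟨n, hn⟩)) hF
    simp only [Module.Basis.constr_basis] at this
    simpa using this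

lemma fst_iSup {ι : Type} (W : ι → Submodule F2 C)
    (hW : ∀ x y, ∀ v ∈ W x, ∀ u ∈ W y, ∀ n, Fst v n → Fst u n → x = y) :
    ∀ v ∈ ⨆ x, W x, ∀ n, Fst v n → ∃ x, ∃ u ∈ W x, Fst u n := by
  classical
  intro v hv n hn
  obtain ⟨f, hf, rfl⟩ := (Submodule.mem_iSup_iff_exists_finsupp W v).1 hv
  have hex : ∀ x, ∃ m, f x ≠ 0 → Fst (f x) m := fun x => by
    by_cases h : f x = 0
    · exact ⟨0, fun h' => absurd h h'⟩
    · obtain ⟨m, hm⟩ := exists_fst h
      exact ⟨m, fun _ => hm⟩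
  choose m hm using hex
  rcases f.support.eq_empty_or_nonempty with h | h
  · rw [Finsupp.sum, h, Finset.sum_empty] at hn
    exact absurd hn (not_fst_zero n)
  · obtain ⟨x, hx, hx'⟩ := fst_sum f.support h f m
      (fun x hx y hy e => hW x y _ (hf x) _ (hf y) (m x) (hm x (Finsupp.mem_support_iff.1 hx))
        (e ▸ hm y (Finsupp.mem_support_iff.1 hy)))
      fun x hx => hm x (Finsupp.mem_support_iff.1 hx)
    exact ⟨x, f x, hf x, (hx'.unique hn) ▸ hm x (Finsupp.mem_support_iff.1 hx)⟩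

lemma exists_cover {k : ℕ} (τ : Fin k → C) (d : ℕ) : ∃ μ : Fin k → ℕ,
    (∀ v ∈ Submodule.span F2 (Set.range τ), ∀ n, Fst v n → ∃ i, μ i = n) ∧
      ∀ i, μ i = d ∨ ∃ v ∈ Submodule.span F2 (Set.range τ), Fst v (μ i) := by
  classical
  let M : Set ℕ := {n | ∃ v ∈ Submodule.span F2 (Set.range τ), Fst v n}
  choose v hv hvn using fun n : M => n.2
  have hli : LinearIndependent F2 v := LinearIndependent.of_comp _
    (indep_mod ⊥ ∅ (fun u hu n hn => absurd ((Submodule.mem_bot F2).1 hu ▸ hn) (not_fst_zero n))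
      v Subtype.val Subtype.val_injective hvn fun _ h => h)
  have hli' : LinearIndependent F2 fun n : M => (⟨v n, hv n⟩ : Submodule.span F2 (Set.range τ)) :=
    LinearIndependent.of_comp (Submodule.subtype _) hli
  have hcard : #M ≤ #(Fin k) :=
    hli'.cardinal_le_rank.trans ((rank_span_le _).trans mk_range_le)
  obtain ⟨e⟩ := (Cardinal.le_def _ _).1 hcard
  refine ⟨fun i => if h : ∃ n : M, e n = i then h.choose.1 else d, fun u hu n hn => ?_, fun i => ?_⟩
  · have h : ∃ n' : M, e n' = e ⟨n, u, hu, hn⟩ := ⟨_, rfl⟩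
    exact ⟨e ⟨n, u, hu, hn⟩, by beta_reduce; rw [dif_pos h, e.injective h.choose_spec]⟩
  · beta_reduce
    by_cases h : ∃ n : M, e n = i
    · right
      rw [dif_pos h]
      exact h.choose.2
    · left
      rw [dif_neg h]

/-- A convergent subsequence of a sequence of tuples, with the first positions of all linear
combinations of the differences lying in separate blocks. -/
def IsSub {k : ℕ} (t : ℕ → Fin k → C) (l : Fin k → C) (φ : ℕ → ℕ) (μ : Fin k → ℕ → ℕ) : Prop :=
  Function.Injective φ ∧ (∀ i j, ∀ᶠ m in cofinite, t (φ m) i j = l i j) ∧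
    (∀ i j m m', μ i m / (k + 1) = μ j m' / (k + 1) → m = m') ∧
    ∀ m, ∀ v ∈ Submodule.span F2 (Set.range fun i => t (φ m) i - l i), ∀ n, Fst v n →
      ∃ i, μ i m = n

lemma exists_sub {k : ℕ} (t : ℕ → Fin k → C) :
    ∃ x : (Fin k → C) × (ℕ → ℕ) × (Fin k → ℕ → ℕ), IsSub t x.1 x.2.1 x.2.2 := by
  obtain ⟨l, φ, hφ, hl⟩ := CompactSpace.tendsto_subseq t
  have hconv : ∀ i j, ∀ᶠ m in atTop, t (φ m) i j = l i j := by
    intro i j
    have := tendsto_pi_nhds.1 (tendsto_pi_nhds.1 hl i) j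
    rwa [nhds_discrete, tendsto_pure] at this
  choose μ hμ hμ' using fun m => exists_cover (fun i => t (φ m) i - l i) m
  have hbig : ∀ a, ∀ᶠ m in atTop, ∀ i, a ≤ μ m i := by
    intro a
    have h1 : ∀ᶠ m in atTop, ∀ i, ∀ j ∈ Set.Iio a, t (φ m) i j = l i j :=
      eventually_all.2 fun i => (eventually_all_finite (Set.finite_Iio a)).2 fun j _ => hconv i j
    filter_upwards [h1, eventually_ge_atTop a] with m hm ham i
    rcases hμ' m i with h | ⟨v, hv, hvn⟩
    · rwa [h]
    · by_contra hlt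
      have h0 : v (μ m i) = 0 := by
        refine Submodule.span_induction (p := fun u _ => u (μ m i) = 0) ?_ rfl ?_ ?_ hv
        · rintro _ ⟨i', rfl⟩
          simp [hm i' _ (not_le.1 hlt)]
        · intro x y _ _ hx hy
          simp [hx, hy]
        · intro c x _ hx
          simp [hx]
      exact absurd (hvn.1.symm.trans h0) (by decide)
  have hnext : ∀ m, ∃ m', m < m' ∧ ∀ i j, μ m i / (k + 1) < μ m' j / (k + 1) := by
    intro m
    obtain ⟨b, hb⟩ := (Set.finite_range (μ m)).bddAbove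
    obtain ⟨m', h1, h2⟩ := ((eventually_gt_atTop m).and (hbig (b + (k + 1)))).exists
    refine ⟨m', h1, fun i j => ?_⟩
    calc μ m i / (k + 1) ≤ b / (k + 1) := Nat.div_le_div_right (hb ⟨i, rfl⟩)
      _ < (b + (k + 1)) / (k + 1) := by
        rw [Nat.add_div_right _ (Nat.succ_pos k)]; exact Nat.lt_succ_self _
      _ ≤ μ m' j / (k + 1) := Nat.div_le_div_right (h2 j)
  choose f hf hf' using hnext
  let ψ : ℕ → ℕ := fun n => f^[n] 0
  have hψ : ∀ n, ψ (n + 1) = f (ψ n) := fun n => Function.iterate_succ_apply' f n 0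
  have hmono : StrictMono ψ := strictMono_nat_of_lt_succ fun n => by rw [hψ]; exact hf _
  have hblk : ∀ m m', m < m' → ∀ i j, μ (ψ m) i / (k + 1) < μ (ψ m') j / (k + 1) := by
    intro m m' h
    induction m', h using Nat.le_induction with
    | base => intro i j; rw [hψ]; exact hf' _ i j
    | succ n _ ih => intro i j; rw [hψ]; exact (ih i i).trans (hf' _ i j)
  refine ⟨(l, φ ∘ ψ, fun i m => μ (ψ m) i), (hφ.comp hmono).injective, fun i j => ?_,
    fun i j m m' h => ?_, fun m => hμ (ψ m)⟩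
  · rw [Nat.cofinite_eq_atTop]
    exact hmono.tendsto_atTop.eventually (hconv i j)
  · rcases lt_trichotomy m m' with h' | h' | h'
    · exact absurd h (hblk _ _ h' i j).ne
    · exact h'
    · exact absurd h (hblk _ _ h' j i).ne'

end Pool.Agent.MP_14ad8d_gt.Sq
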