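import Pool.Agent.MP_14ad8d_gt.Sq.Grp

/-!
Tools for the countable power: copies of a weak P-point and subsequences of sequences of
infinite tuples.
-/

open Filter Topology Cardinal

namespace Pool.Agent.MP_14ad8d_gt.Sq

lemma WP_sep {α : Type} (R : Set (Ultrafilter α)) (hR : R.Countable) (hW : ∀ r ∈ R, WP r) :
    ∃ A : Ultrafilter α → Set α, (∀ r ∈ R, A r ∈ r) ∧
      ∀ r ∈ R, ∀ r' ∈ R, r ≠ r' → Disjoint (A r) (A r') := by
  classical
  obtain ⟨e, he⟩ := Set.countable_iff_exists_injOn.1 hR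
  have hZ : ∀ r, ∃ Z : Set α, r ∈ R → Z ∈ r ∧ ∀ r' ∈ R, r' ≠ r → Z ∉ r' := by
    intro r
    by_cases hr : r ∈ R
    · obtain ⟨Z, hZ, hZ'⟩ := (hW r hr).2 (R \ {r}) (hR.mono Set.sdiff_subset)
        (fun y hy => (hW y hy.1).1) (fun h => h.2 rfl)
      exact ⟨Z, fun _ => ⟨hZ, fun r' hr' h => hZ' r' ⟨hr', h⟩⟩⟩
    · exact ⟨∅, fun h => absurd h hr⟩
  choose Z hZ using hZ
  let A : Ultrafilter α → Set α := fun r => Z r ∩ ⋂ r' ∈ {r' ∈ R | e r' < e r}, (Z r')ᶜ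
  have hlt : ∀ r, ∀ r' ∈ R, e r' < e r → Disjoint (A r) (A r') := fun r r' hr' h =>
    Set.disjoint_left.2 fun x hx hx' => Set.mem_iInter₂.1 hx.2 r' ⟨hr', h⟩ hx'.1
  refine ⟨A, fun r hr => ?_, fun r hr r' hr' h => ?_⟩
  · have hfin : {r' ∈ R | e r' < e r}.Finite :=
      Set.Finite.of_finite_image ((Set.finite_lt_nat (e r)).subset (by
        rintro _ ⟨s', hs', rfl⟩; exact hs'.2)) (he.mono fun _ h => h.1)
    refine inter_mem (hZ r hr).1 ((biInter_mem hfin).2 fun r' hr' => ?_)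
    exact Ultrafilter.compl_mem_iff_notMem.2
      ((hZ r' hr'.1).2 r hr fun h => absurd hr'.2 (by rw [h]; exact lt_irrefl _))
  · rcases lt_or_gt_of_ne (fun h' => h (he hr hr' h')) with hl | hl
    · exact (hlt r' r hr hl).symm
    · exact hlt r r' hr' hl

lemma exists_copies {ι : Type} (hι : #ι ≤ #T) {κ : Type} [Countable κ] (h : ι → κ → ℕ → ℕ)
    (hh : ∀ s i, Function.Injective (h s i)) :
    ∃ x : Ultrafilter ℕ × (ι → ℕ → ℕ), WP x.1 ∧ (∀ s, Function.Injective (x.2 s)) ∧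
      ∀ s s', s ≠ s' → ∀ i j, x.1.map (h s i ∘ x.2 s) ≠ x.1.map (h s' j ∘ x.2 s') := by
  obtain ⟨w, hw⟩ := exists_WP
  obtain ⟨i1, i2, hwo⟩ := exists_wo ι
  obtain ⟨a, ha⟩ := @exists_choice_aux ι i1 i2 (fun s => (hwo s).trans_le hι) (Ultrafilter ℕ)
    (fun s a => Set.range fun i => w.map (h s i ∘ br a)) (fun s a => Set.countable_range _)
    (fun s x => by
      have : {a : T | x ∈ Set.range fun i => w.map (h s i ∘ br a)} =
          ⋃ i, (fun a : T => w.map (h s i ∘ br a)) ⁻¹' {x} := by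
        ext a
        simp
      rw [this]
      exact Set.countable_iUnion fun i =>
        (Set.countable_singleton x).preimage (map_br_injective hw.1 (hh s i)))
  exact ⟨(w, fun s => br (a s)), hw, fun s => br_injective _, fun s s' hs i j e =>
    Set.disjoint_left.1 (ha s s' hs) ⟨i, rfl⟩ ⟨j, e.symm⟩⟩

/-- Every ultrafilter has an injective image outside the closures of all countable subfamilies. -/
lemma dodge {σ : Type} {w : Ultrafilter ℕ} (hw : WP w) (g : σ → ℕ → ℕ)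
    (hg : ∀ x, Function.Injective (g x)) (G : ℕ → ℕ → ℕ)
    (hG : ∀ j j' m m', G j m = G j' m' → j = j' ∧ m = m')
    (hne : ∀ x j, w.map (g x) ≠ w.map (G j)) (p : Ultrafilter ℕ) :
    ∃ (f : ℕ → ℕ) (X : Set ℕ), X ∈ p ∧ Set.InjOn f X ∧ ∀ D : Set σ, D.Countable →
      ∃ Z : Set ℕ, f ⁻¹' Z ∈ p ∧ ∀ x ∈ D, Z ∉ w.map (g x) := by
  classical
  by_cases h1 : ∀ D : Set σ, D.Countable → ∃ Z : Set ℕ, Z ∈ p ∧ ∀ x ∈ D, Z ∉ w.map (g x)
  · exact ⟨id, Set.univ, univ_mem, Set.injOn_id _, h1⟩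
  push Not at h1
  obtain ⟨D₀, hD₀, hp⟩ := h1
  let R₀ : Set (Ultrafilter ℕ) := (fun x => w.map (g x)) '' D₀
  have hR₀ : R₀.Countable := hD₀.image _
  obtain ⟨A, hA, hAd⟩ := WP_sep R₀ hR₀ (by rintro _ ⟨x, -, rfl⟩; exact hw.map (hg x))
  obtain ⟨e, he⟩ := Set.countable_iff_exists_injOn.1 hR₀
  choose γ _ hγ using fun r : R₀ => r.2
  let X : Set ℕ := {n | ∃ y : R₀ × ℕ, n ∈ A y.1 ∧ g (γ y.1) y.2 = n}
  let f : ℕ → ℕ := fun n => if h : n ∈ X then G (e h.choose.1) h.choose.2 else 0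
  have hf : ∀ (r : R₀) (m : ℕ), g (γ r) m ∈ A r → f (g (γ r) m) = G (e r) m := by
    intro r m hm
    have h : g (γ r) m ∈ X := ⟨(r, m), hm, rfl⟩
    have e1 : h.choose.1 = r := by
      by_contra hne'
      exact Set.disjoint_left.1 (hAd _ h.choose.1.2 _ r.2 fun h' => hne' (Subtype.ext h'))
        h.choose_spec.1 hm
    have e2 : h.choose.2 = m := hg (γ r) (by
      have := h.choose_spec.2
      rwa [e1] at this)
    simp only [f]
    rw [dif_pos h, e1, e2]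
  have hall : ∀ Y : Set ℕ, (∀ r : R₀, ∀ᶠ m in (w : Filter ℕ), g (γ r) m ∈ Y) → Y ∈ p := by
    intro Y hY
    by_contra h
    obtain ⟨x, hx, hx'⟩ := hp Yᶜ (Ultrafilter.compl_mem_iff_notMem.2 h)
    have h2 : Y ∈ w.map (g (γ ⟨_, x, hx, rfl⟩)) := hY ⟨_, x, hx, rfl⟩
    have h3 : w.map (g (γ ⟨_, x, hx, rfl⟩)) = w.map (g x) := hγ ⟨_, x, hx, rfl⟩
    rw [h3] at h2
    exact Ultrafilter.compl_mem_iff_notMem.1 hx' h2
  have hAw : ∀ r : R₀, ∀ᶠ m in (w : Filter ℕ), g (γ r) m ∈ A r := by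
    intro r
    have h3 : w.map (g (γ r)) = r := hγ r
    have h2 : A r ∈ w.map (g (γ r)) := by rw [h3]; exact hA r r.2
    exact h2
  refine ⟨f, X, hall X fun r => ?_, ?_, fun D hD => ?_⟩
  · filter_upwards [hAw r] with m hm
    exact ⟨(r, m), hm, rfl⟩
  · rintro _ ⟨⟨r, m⟩, hm, rfl⟩ _ ⟨⟨r', m'⟩, hm', rfl⟩ h
    rw [hf r m hm, hf r' m' hm'] at h
    obtain ⟨h1, h2⟩ := hG _ _ _ _ h
    rw [Subtype.ext (he r.2 r'.2 h1), h2]
  · have hGi : ∀ j, Function.Injective (G j) := fun j m m' h => (hG _ _ _ _ h).2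
    obtain ⟨B, hB, hBd⟩ := WP_sep ((fun x => w.map (g x)) '' D ∪ Set.range fun j => w.map (G j))
      ((hD.image _).union (Set.countable_range _)) (by
        rintro _ (⟨x, -, rfl⟩ | ⟨j, rfl⟩)
        · exact hw.map (hg x)
        · exact hw.map (hGi j))
    refine ⟨⋃ j, B (w.map (G j)), hall _ fun r => ?_, fun x hx hZ => ?_⟩
    · have h2 : ∀ᶠ m in (w : Filter ℕ), G (e r) m ∈ B (w.map (G (e r))) :=
        hB _ (Or.inr ⟨e r, rfl⟩)
      filter_upwards [hAw r, h2] with m hm hm'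
      rw [Set.mem_preimage, hf _ _ hm]
      exact Set.mem_iUnion.2 ⟨_, hm'⟩
    · obtain ⟨n, hn, hn'⟩ := Ultrafilter.nonempty_of_mem (inter_mem hZ (hB _ (Or.inl ⟨x, hx, rfl⟩)))
      obtain ⟨j, hj⟩ := Set.mem_iUnion.1 hn
      exact Set.disjoint_left.1 (hBd _ (Or.inl ⟨x, hx, rfl⟩) _ (Or.inr ⟨j, rfl⟩) (hne x j)) hn' hj

/-- A convergent subsequence of a sequence of infinite tuples, with separated first positions. -/
def IsSubO (t : ℕ → ℕ → C) (l : ℕ → C) (φ : ℕ → ℕ) (μ : ℕ × ℕ → ℕ → ℕ) : Prop :=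
  Function.Injective φ ∧ (∀ i j, ∀ᶠ m in cofinite, t (φ m) i j = l i j) ∧
    (∀ x y m m', μ x m = μ y m' → m = m') ∧
    ∀ m, ∀ i ≤ m, ∀ v ∈ Submodule.span F2 (Set.range fun a : Fin (i + 1) => t (φ m) a - l a),
      ∀ n, Fst v n → ∃ j ≤ i, μ (i, j) m = n

lemma exists_subO (t : ℕ → ℕ → C) :
    ∃ x : (ℕ → C) × (ℕ → ℕ) × (ℕ × ℕ → ℕ → ℕ), IsSubO t x.1 x.2.1 x.2.2 := by
  obtain ⟨l, φ, hφ, hl⟩ := CompactSpace.tendsto_subseq t
  have hconv : ∀ i j, ∀ᶠ m in atTop, t (φ m) i j = l i j := by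
    intro i j
    have := tendsto_pi_nhds.1 (tendsto_pi_nhds.1 hl i) j
    rwa [nhds_discrete, tendsto_pure] at this
  choose ν hν hν' using fun m i => exists_cover (fun a : Fin (i + 1) => t (φ m) a - l a) m
  have hbig : ∀ a i, ∀ᶠ m in atTop, ∀ j, a ≤ ν m i j := by
    intro a i
    have h1 : ∀ᶠ m in atTop, ∀ c : Fin (i + 1), ∀ j ∈ Set.Iio a, t (φ m) c j = l c j :=
      eventually_all.2 fun c => (eventually_all_finite (Set.finite_Iio a)).2 fun j _ => hconv c j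
    filter_upwards [h1, eventually_ge_atTop a] with m hm ham j
    rcases hν' m i j with h | ⟨v, hv, hvn⟩
    · rwa [h]
    · by_contra hlt
      have h0 : v (ν m i j) = 0 := by
        refine Submodule.span_induction (p := fun u _ => u (ν m i j) = 0) ?_ rfl ?_ ?_ hv
        · rintro _ ⟨i', rfl⟩
          simp [hm i' _ (not_le.1 hlt)]
        · intro x y _ _ hx hy
          simp [hx, hy]
        · intro c x _ hx
          simp [hx]
      exact absurd (hvn.1.symm.trans h0) (by decide)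
  let P : ℕ → ℕ → Set ℕ := fun m n => insert n (⋃ i ∈ Set.Iic m, Set.range (ν n i))
  have hnext : ∀ m n, ∃ n', ∀ a ∈ P m n, ∀ b ∈ P (m + 1) n', a < b := by
    intro m n
    obtain ⟨c, hc⟩ := (((Set.finite_Iic m).biUnion (t := fun i => Set.range (ν n i))
      fun i _ => Set.finite_range _).insert n).bddAbove
    obtain ⟨n', h1, h2⟩ := ((eventually_ge_atTop (c + 1)).and
      ((eventually_all_finite (Set.finite_Iic (m + 1))).2 fun i _ => hbig (c + 1) i)).exists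
    refine ⟨n', fun a ha b hb => lt_of_le_of_lt (hc ha) ?_⟩
    rcases hb with rfl | hb
    · exact h1
    · obtain ⟨i, hi, j, rfl⟩ := Set.mem_iUnion₂.1 hb
      exact h2 i hi j
  choose f hf using hnext
  let ψ : ℕ → ℕ := fun m => Nat.rec 0 f m
  have hψ : ∀ m, ψ (m + 1) = f m (ψ m) := fun _ => rfl
  have hblk : ∀ m m', m < m' → ∀ a ∈ P m (ψ m), ∀ b ∈ P m' (ψ m'), a < b := by
    intro m m' h
    induction m', h using Nat.le_induction with
    | base => exact hf m (ψ m)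
    | succ n _ ih =>
      exact fun a ha b hb => (ih a ha _ (Or.inl rfl)).trans (hf n (ψ n) _ (Or.inl rfl) b hb)
  have hmono : StrictMono ψ := fun m m' h => hblk m m' h _ (Or.inl rfl) _ (Or.inl rfl)
  let μ : ℕ × ℕ → ℕ → ℕ := fun x m =>
    if h : x.1 ≤ m ∧ x.2 < x.1 + 1 then ν (ψ m) x.1 ⟨x.2, h.2⟩ else ψ m
  have hμ : ∀ x m, μ x m ∈ P m (ψ m) := by
    intro x m
    simp only [μ]
    split_ifs with h
    · exact Or.inr (Set.mem_iUnion₂.2 ⟨x.1, h.1, _, rfl⟩)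
    · exact Or.inl rfl
  refine ⟨(l, φ ∘ ψ, μ), (hφ.comp hmono).injective, fun i j => ?_, fun x y m m' h => ?_,
    fun m i hi v hv n hn => ?_⟩
  · rw [Nat.cofinite_eq_atTop]
    exact hmono.tendsto_atTop.eventually (hconv i j)
  · rcases lt_trichotomy m m' with h' | h' | h'
    · exact absurd h (hblk _ _ h' _ (hμ x m) _ (hμ y m')).ne
    · exact h'
    · exact absurd h (hblk _ _ h' _ (hμ y m') _ (hμ x m)).ne'
  · obtain ⟨j, hj⟩ := hν (ψ m) i v hv n hn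
    refine ⟨j, Nat.lt_succ_iff.1 j.2, ?_⟩
    simp only [μ]
    rw [dif_pos ⟨hi, j.2⟩]
    exact hj

end Pool.Agent.MP_14ad8d_gt.Sq
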