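import Pool.Agent.MP_14ad8d_gt.Sq.OmegaA
import Pool.Agent.MP_14ad8d_gt.Sq.Defs

/-!
A Boolean group whose countable power is countably compact and which is not strongly
p-pseudocompact for any free ultrafilter p.
-/

open Filter Topology Cardinal

namespace Pool.Agent.MP_14ad8d_gt.Sq

/-- Terms: generators, sums and limits of sequences of infinite tuples. -/
inductive To : Type
  | base (n : ℕ) : To
  | add (a b : To) : To
  | lim (i : ℕ) (s : ℕ → ℕ → To) : To

/-- A code of a term. -/
def To.code : To → List (ℕ × ℕ) → ℕ × ℕ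
  | To.base n, _ => (0, n)
  | To.add _ _, [] => (1, 0)
  | To.add a b, x :: l => if x.1 = 0 then a.code l else b.code l
  | To.lim i _, [] => (2, i)
  | To.lim _ s, x :: l => (s x.1 x.2).code l

lemma To.code_injective : Function.Injective To.code := by
  intro a
  induction a with
  | base n =>
    intro b h
    have h0 := congrFun h []
    cases b <;> simp [To.code] at h0 ⊢
    exact h0
  | add a a' ih ih' =>
    intro b h
    have h0 := congrFun h []
    cases b with
    | base n => simp [To.code] at h0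
    | add b b' =>
      have e1 : a = b := ih (funext fun l => by simpa [To.code] using congrFun h ((0, 0) :: l))
      have e2 : a' = b' := ih' (funext fun l => by simpa [To.code] using congrFun h ((1, 0) :: l))
      rw [e1, e2]
    | lim i s => simp [To.code] at h0
  | lim i s ih =>
    intro b h
    have h0 := congrFun h []
    cases b with
    | base n => simp [To.code] at h0
    | add b b' => simp [To.code] at h0
    | lim j t =>
      have e1 : i = j := by simpa [To.code] using h0
      have e2 : s = t := funext fun m => funext fun x => ih m x (funext fun l => by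
        simpa [To.code] using congrFun h ((m, x) :: l))
      rw [e1, e2]

lemma card_seqO : #(Option (ℕ → ℕ → To)) ≤ #T := by
  have h1 : #To ≤ 𝔠 := (mk_le_of_injective To.code_injective).trans (by simp)
  have h2 : #(ℕ → To) ≤ 𝔠 := by
    rw [← power_def, mk_nat, ← continuum_power_aleph0]
    exact power_le_power_right h1
  have h3 : #(ℕ → ℕ → To) ≤ 𝔠 := by
    rw [← power_def, mk_nat, ← continuum_power_aleph0]
    exact power_le_power_right h2
  rw [card_T, mk_option]
  exact add_le_of_le aleph0_le_continuum h3 (one_le_aleph0.trans aleph0_le_continuum)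

/-- The image of a term in the Cantor group. -/
noncomputable def To.pi : To → C
  | To.base n => Pi.single n 1
  | To.add a b => a.pi + b.pi
  | To.lim i s => (exists_subO fun m j => (s m j).pi).choose.1 i

/-- The chosen limit. -/
noncomputable def lmO (s : ℕ → ℕ → To) : ℕ → C := (exists_subO fun m j => (s m j).pi).choose.1

/-- The chosen subsequence. -/
noncomputable def sqO (s : ℕ → ℕ → To) : ℕ → ℕ := (exists_subO fun m j => (s m j).pi).choose.2.1

/-- The chosen positions. -/
noncomputable def psO (s : ℕ → ℕ → To) : ℕ × ℕ → ℕ → ℕ :=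
  (exists_subO fun m j => (s m j).pi).choose.2.2

lemma isSubO (s : ℕ → ℕ → To) : IsSubO (fun m j => (s m j).pi) (lmO s) (sqO s) (psO s) :=
  (exists_subO fun m j => (s m j).pi).choose_spec

/-- The positions, together with a reserved family. -/
noncomputable def hO : Option (ℕ → ℕ → To) → ℕ × ℕ → ℕ → ℕ
  | none, x => fun m => Nat.pair x.1 m
  | some s, x => psO s x

lemma hO_injective : ∀ s x, Function.Injective (hO s x)
  | none, _ => fun _ _ h => (Nat.pair_eq_pair.1 h).2
  | some s, x => fun m m' h => (isSubO s).2.2.1 x x m m' h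

/-- The weak P-point. -/
noncomputable def wO : Ultrafilter ℕ := (exists_copies card_seqO hO hO_injective).choose.1

/-- The injections giving the copies. -/
noncomputable def bO : Option (ℕ → ℕ → To) → ℕ → ℕ :=
  (exists_copies card_seqO hO hO_injective).choose.2

lemma wO_spec : WP wO ∧ (∀ s, Function.Injective (bO s)) ∧
    ∀ s s', s ≠ s' → ∀ i j, wO.map (hO s i ∘ bO s) ≠ wO.map (hO s' j ∘ bO s') :=
  (exists_copies card_seqO hO hO_injective).choose_spec

/-- The chosen ultrafilters. -/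
noncomputable def ufO (s : ℕ → ℕ → To) : Ultrafilter ℕ := wO.map (bO (some s))

lemma ufO_le (s : ℕ → ℕ → To) : (ufO s : Filter ℕ) ≤ cofinite :=
  (wO_spec.1.map (wO_spec.2.1 _)).1

/-- The injections giving the ultrafilters on positions. -/
noncomputable def gO (x : (ℕ → ℕ → To) × ℕ × ℕ) : ℕ → ℕ := psO x.1 x.2 ∘ bO (some x.1)

lemma gO_injective (x : (ℕ → ℕ → To) × ℕ × ℕ) : Function.Injective (gO x) :=
  (hO_injective (some x.1) x.2).comp (wO_spec.2.1 _)

/-- The value of a term at a character. -/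
noncomputable def To.val : To → C → F2
  | To.base n, c => c n
  | To.add a b, c => a.val c + b.val c
  | To.lim i s, c => ulim (ufO s) fun m => (s (sqO s m) i).val c

/-- The sequences occurring in a term. -/
def To.sub : To → Set (ℕ → ℕ → To)
  | To.base _ => ∅
  | To.add a b => a.sub ∪ b.sub
  | To.lim _ s => insert s (⋃ m, ⋃ j, (s m j).sub)

lemma To.sub_countable (a : To) : a.sub.Countable := by
  induction a with
  | base n => exact Set.countable_empty
  | add a b iha ihb => exact iha.union ihb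
  | lim i s ih =>
    exact (Set.countable_iUnion fun m => Set.countable_iUnion fun j => ih m j).insert s

lemma To.val_eq (F : C →ₗ[F2] F2) (a : To)
    (h : ∀ s ∈ a.sub, ∀ i, ∀ᶠ m in (ufO s : Filter ℕ), F (s (sqO s m) i).pi = F (lmO s i)) :
    a.val (fun n => F (Pi.single n 1)) = F a.pi := by
  induction a with
  | base n => rfl
  | add a b iha ihb =>
    simp only [To.val, To.pi, map_add]
    rw [iha fun s hs => h s (Or.inl hs), ihb fun s hs => h s (Or.inr hs)]
  | lim i s ih =>
    refine ulim_eq ?_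
    filter_upwards [h s (Or.inl rfl) i] with m hm
    rw [ih _ _ fun s' hs' => h s' (Or.inr (Set.mem_iUnion₂.2 ⟨_, _, hs'⟩))]
    exact hm

lemma To.val_dl (a : To) (j : ℕ) : a.val (dl j) = a.pi j :=
  a.val_eq (LinearMap.proj j) fun s _ i => ufO_le s ((isSubO s).2.1 i j)

/-- The key lemma. -/
lemma exists_charO (z : ℕ → To) (hz : ∀ n, Fst (z n).pi n) :
    ∃ D : Set ((ℕ → ℕ → To) × ℕ × ℕ), D.Countable ∧ ∀ Z : Set ℕ,
      (∀ x ∈ D, Z ∉ wO.map (gO x)) → ∃ c : C, ∀ n ∈ Z, (z n).val c = 1 := by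
  classical
  let D₀ : Set (ℕ → ℕ → To) := ⋃ n, (z n).sub
  have hD₀ : D₀.Countable := Set.countable_iUnion fun n => (z n).sub_countable
  have hD : (D₀ ×ˢ (Set.univ : Set (ℕ × ℕ))).Countable := hD₀.prod Set.countable_univ
  refine ⟨D₀ ×ˢ Set.univ, hD, fun Z hZ => ?_⟩
  obtain ⟨A, hA, hAd⟩ := WP_sep ((fun x => wO.map (gO x)) '' (D₀ ×ˢ Set.univ)) (hD.image _)
    (by rintro _ ⟨x, -, rfl⟩; exact wO_spec.1.map (gO_injective x))
  let N : (ℕ → ℕ → To) → ℕ → ℕ → Prop := fun s m i =>
    ∀ j ≤ i, psO s (i, j) m ∈ A (wO.map (gO (s, i, j))) ∧ psO s (i, j) m ∉ Z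
  have hN : ∀ s ∈ D₀, ∀ i, ∀ᶠ m in (ufO s : Filter ℕ), N s m i := by
    intro s hs i
    refine (eventually_all_finite (Set.finite_Iic i)).2 fun j _ => ?_
    have h1 : A (wO.map (gO (s, i, j))) ∈ wO.map (gO (s, i, j)) :=
      hA _ ⟨(s, i, j), ⟨hs, trivial⟩, rfl⟩
    have h2 : Zᶜ ∈ wO.map (gO (s, i, j)) :=
      Ultrafilter.compl_mem_iff_notMem.2 (hZ (s, i, j) ⟨hs, trivial⟩)
    exact inter_mem h1 h2
  let lv : (ℕ → ℕ → To) → ℕ → ℕ := fun s m => Nat.findGreatest (N s m) m
  let ι : Type := {x : (ℕ → ℕ → To) × ℕ // x.1 ∈ D₀ ∧ N x.1 x.2 (lv x.1 x.2)}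
  let W : ι → Submodule F2 C := fun x => Submodule.span F2
    (Set.range fun a : Fin (lv x.1.1 x.1.2 + 1) => (x.1.1 (sqO x.1.1 x.1.2) a).pi - lmO x.1.1 a)
  have hps : ∀ x : ι, ∀ v ∈ W x, ∀ n, Fst v n →
      ∃ j ≤ lv x.1.1 x.1.2, psO x.1.1 (lv x.1.1 x.1.2, j) x.1.2 = n :=
    fun x => (isSubO x.1.1).2.2.2 x.1.2 _ (Nat.findGreatest_le _)
  obtain ⟨F, hF0, hF1⟩ := exists_functional (⨆ x, W x) Zᶜ (fun v hv n hn => by
    obtain ⟨x, u, hu, hun⟩ := fst_iSup W (fun x y v hv u hu n hvn hun => by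
      obtain ⟨i, hi, hi'⟩ := hps x v hv n hvn
      obtain ⟨j, hj, hj'⟩ := hps y u hu n hun
      obtain ⟨⟨s, m⟩, hs, hm⟩ := x
      obtain ⟨⟨s', m'⟩, hs', hm'⟩ := y
      have e : s = s' := by
        by_contra hne
        refine Set.disjoint_left.1 (hAd _ ⟨(s, lv s m, i), ⟨hs, trivial⟩, rfl⟩ _
          ⟨(s', lv s' m', j), ⟨hs', trivial⟩, rfl⟩
          (wO_spec.2.2 (some s) (some s') (by simpa using hne) _ _)) (hm i hi).1 ?_
        rw [hi'.trans hj'.symm]
        exact (hm' j hj).1
      subst e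
      have e' : m = m' := (isSubO s).2.2.1 _ _ m m' (hi'.trans hj'.symm)
      subst e'
      rfl) v hv n hn
    obtain ⟨j, hj, hj'⟩ := hps x u hu n hun
    rw [← hj']
    exact (x.2.2 j hj).2) (fun n => (z n).pi) hz
  refine ⟨fun n => F (Pi.single n 1), fun n hn => ?_⟩
  rw [To.val_eq F _ fun s hs i => ?_, hF1 _ (not_not.2 hn)]
  have hsD : s ∈ D₀ := Set.mem_iUnion.2 ⟨_, hs⟩
  have hi : ∀ᶠ m in (ufO s : Filter ℕ), i ≤ m :=
    ((ufO_le s).trans Nat.cofinite_eq_atTop.le) (eventually_ge_atTop i)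
  filter_upwards [hN s hsD i, hi] with m hm him
  have h1 : i ≤ lv s m := Nat.le_findGreatest him hm
  have := hF0 _ (Submodule.mem_iSup_of_mem (⟨(s, m), hsD, Nat.findGreatest_spec him hm⟩ : ι)
    (Submodule.subset_span (Set.mem_range_self (⟨i, Nat.lt_succ_of_le h1⟩ : Fin (lv s m + 1)))))
  rwa [map_sub, sub_eq_zero] at this

/-- The group of values of terms. -/
def GrpO : AddSubgroup (C → F2) where
  carrier := Set.range To.val
  zero_mem' := ⟨To.add (To.base 0) (To.base 0), funext fun c => CharTwo.add_self_eq_zero _⟩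
  add_mem' := by
    rintro _ _ ⟨a, rfl⟩ ⟨b, rfl⟩
    exact ⟨To.add a b, rfl⟩
  neg_mem' := by
    rintro _ ⟨a, rfl⟩
    exact ⟨a, funext fun c => (ZMod.neg_eq_self_mod_two _).symm⟩

lemma GrpO.add_self (g : GrpO) : g + g = 0 :=
  Subtype.ext (funext fun c => CharTwo.add_self_eq_zero (g.1 c))

lemma countablyCompactO : CountablyCompactSpace (ℕ → GrpO) := by
  refine ⟨IsCountablyCompact.of_seq_clusterPt fun x _ => ?_⟩
  choose s hs using fun m i => (x m i).2
  refine ⟨fun i => ⟨(To.lim i s).val, _, rfl⟩, Set.mem_univ _, ?_⟩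
  have ht : Tendsto (x ∘ sqO s) (ufO s : Filter ℕ)
      (𝓝 fun i => (⟨(To.lim i s).val, _, rfl⟩ : GrpO)) := by
    refine tendsto_pi_nhds.2 fun i => tendsto_subtype_rng.2 (tendsto_pi_nhds.2 fun c => ?_)
    rw [nhds_discrete, tendsto_pure]
    filter_upwards [ev_ulim (ufO s) fun m => (s (sqO s m) i).val c] with m hm
    rw [hs] at hm
    exact hm
  have hφ : Tendsto (sqO s) (ufO s : Filter ℕ) atTop := by
    rw [← Nat.cofinite_eq_atTop]
    exact (isSubO s).1.tendsto_cofinite.mono_left (ufO_le s)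
  exact MapClusterPt.of_comp hφ ht.mapClusterPt

lemma not_stronglyO (p : Ultrafilter ℕ) (hp : (p : Filter ℕ) ≤ cofinite) :
    ¬ StronglyPseudocompact p GrpO := by
  classical
  intro h
  obtain ⟨f, X, hX, hf, hD⟩ := dodge wO_spec.1 gO gO_injective
    (fun j => hO none (j, 0) ∘ bO none)
    (fun j j' m m' h => ⟨(Nat.pair_eq_pair.1 h).1, wO_spec.2.1 _ (Nat.pair_eq_pair.1 h).2⟩)
    (fun x j => wO_spec.2.2 (some x.1) none (by simp) _ _) p
  have hc : ∀ c : C, Continuous fun g : GrpO => g.1 c :=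
    fun c => (continuous_apply c).comp continuous_subtype_val
  obtain ⟨x, hx, y, hy⟩ := h (fun n => {g | Fst (fun j => g.1 (dl j)) (f n)}) fun n => ⟨by
    have : {g : GrpO | Fst (fun j => g.1 (dl j)) (f n)} = {g : GrpO | g.1 (dl (f n)) = 1} ∩
        ⋂ j ∈ Set.Iio (f n), {g : GrpO | g.1 (dl j) = 0} := by
      ext g
      simp [Fst]
    rw [this]
    exact ((isOpen_discrete {(1 : F2)}).preimage (hc _)).inter
      ((Set.finite_Iio _).isOpen_biInter fun j _ => (isOpen_discrete {(0 : F2)}).preimage (hc _)),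
    ⟨(To.base (f n)).val, _, rfl⟩, by simp [To.val, dl], fun j hj => by simp [To.val, dl, hj.ne]⟩
  have hev : ∀ c : C, ∀ᶠ n in (p : Filter ℕ), (x n).1 c = y.1 c := by
    intro c
    have := ((hc c).tendsto y).comp hy
    rwa [nhds_discrete F2, tendsto_pure] at this
  have hy0 : ∀ j, y.1 (dl j) = 0 := by
    intro j
    have hfin : (X ∩ f ⁻¹' Set.Iic j).Finite :=
      Set.Finite.of_finite_image ((Set.finite_Iic j).subset (by
        rintro _ ⟨n, hn, rfl⟩; exact hn.2)) (hf.mono Set.inter_subset_left)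
    have h1 : ∀ᶠ n in (p : Filter ℕ), n ∉ X ∩ f ⁻¹' Set.Iic j := hp hfin.compl_mem_cofinite
    have h2 : ∀ᶠ n in (p : Filter ℕ), n ∈ X := hX
    obtain ⟨n, ⟨h3, h4⟩, h5⟩ := ((h1.and h2).and (hev (dl j))).exists
    rw [← h5]
    exact (hx n).2 j (not_le.1 fun h => h3 ⟨h4, h⟩)
  choose z hz using fun n => (x n + y).2
  have hzF : ∀ n, Fst (z n).pi (f n) := by
    intro n
    have : (z n).pi = fun j => (x n).1 (dl j) := funext fun j => by
      rw [← To.val_dl, hz]
      simp [hy0]
    rw [this]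
    exact hx n
  let z' : ℕ → To := fun k => if h : ∃ n ∈ X, f n = k then z h.choose else To.base k
  obtain ⟨D, hDc, hchar⟩ := exists_charO z' (fun k => by
    simp only [z']
    split_ifs with h
    · have := hzF h.choose
      rwa [h.choose_spec.2] at this
    · exact ⟨by simp [To.pi], fun j hj => by simp [To.pi, hj.ne]⟩)
  obtain ⟨Z, hZ, hZD⟩ := hD D hDc
  obtain ⟨c, hc1⟩ := hchar Z hZD
  have h1 : ∀ᶠ n in (p : Filter ℕ), f n ∈ Z := hZ
  have h2 : ∀ᶠ n in (p : Filter ℕ), n ∈ X := hX
  obtain ⟨n, ⟨h3, h4⟩, h5⟩ := ((h1.and h2).and (hev c)).exists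
  have h6 := hc1 _ h3
  have h7 : ∃ n' ∈ X, f n' = f n := ⟨n, h4, rfl⟩
  simp only [z'] at h6
  rw [dif_pos h7, hf h7.choose_spec.1 h4 h7.choose_spec.2, hz] at h6
  have h8 : (x n).1 c + y.1 c = 1 := h6
  rw [h5, CharTwo.add_self_eq_zero] at h8
  exact absurd h8 (by decide)

/-- If the countable power is countably compact then all powers are selectively pseudocompact. -/
lemma selective_pow {G : Type} [TopologicalSpace G] [Zero G] (h : CountablyCompactSpace (ℕ → G))
    (ι : Type) : SelectivelyPseudocompact (ι → G) := by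
  classical
  intro U hU
  choose g hg using fun n => (hU n).2
  choose I v hv hI using fun n => isOpen_pi_iff.1 (hU n).1 (g n) (hg n)
  rcases isEmpty_or_nonempty ι with hι | hι
  · refine ⟨g, hg, g 0, ?_⟩
    rw [mapClusterPt_iff_frequently]
    exact fun s hs => Frequently.of_forall fun n =>
      (Subsingleton.elim (g 0) (g n)) ▸ mem_of_mem_nhds hs
  obtain ⟨j, hj⟩ := Set.countable_iff_exists_subset_range.1
    (Set.countable_iUnion fun n => (I n).countable_toSet)
  let Φ : (ℕ → G) → ι → G := fun u a => if h : ∃ i, j i = a then u h.choose else 0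
  have hΦ : Continuous Φ := continuous_pi fun a => by
    simp only [Φ]
    split_ifs
    · exact continuous_apply _
    · exact continuous_const
  obtain ⟨y, -, hy⟩ := h.isCountablyCompact_univ.seq_clusterPt (fun n => g n ∘ j)
    (Eventually.of_forall fun _ => Set.mem_univ _)
  refine ⟨fun n => Φ (g n ∘ j), fun n => hI n fun a ha => ?_, Φ y,
    hy.continuousAt_comp hΦ.continuousAt⟩
  have h1 : ∃ i, j i = a := hj (Set.mem_iUnion.2 ⟨n, ha⟩)
  simp only [Φ]
  rw [dif_pos h1, Function.comp_apply, h1.choose_spec]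
  exact (hv n a ha).2

end Pool.Agent.MP_14ad8d_gt.Sq
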