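import Pool.Agent.MP_14ad8d_gt.Sq.Defs

/-!
If all finite powers of a topological group are selectively pseudocompact, then one ultrafilter
serves any countable family of sequences of open sets.
-/

open Filter Topology Pointwise

namespace Pool.Agent.MP_14ad8d_gt.Sq

variable {G : Type} [Group G] [TopologicalSpace G] [IsTopologicalGroup G]

lemma nhds_rel {V : Set G} (hV : V ∈ 𝓝 (1 : G)) (a : G) : {b | a⁻¹ * b ∈ V} ∈ 𝓝 a :=
  (continuous_const_mul a⁻¹).continuousAt.preimage_mem_nhds (by simpa using hV)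

lemma exists_chain (N : ℕ → Set G) (hN : ∀ n, N n ∈ 𝓝 (1 : G)) : ∃ V : ℕ → Set G,
    (∀ n, V n ∈ 𝓝 (1 : G)) ∧ (∀ n, ∀ a ∈ V n, a⁻¹ ∈ V n) ∧
      (∀ n, ∀ a ∈ V n, ∀ b ∈ V n, a * b ∈ N n) ∧
      ∀ n, ∀ a ∈ V (n + 1), ∀ b ∈ V (n + 1), a * b ∈ V n := by
  have h : ∀ U : {U : Set G // U ∈ 𝓝 (1 : G)}, ∃ V : {U : Set G // U ∈ 𝓝 (1 : G)},
      (∀ a ∈ V.1, a⁻¹ ∈ V.1) ∧ ∀ a ∈ V.1, ∀ b ∈ V.1, a * b ∈ U.1 := by
    intro U
    obtain ⟨V, hV, -, h1, h2⟩ := exists_closed_nhds_one_inv_eq_mul_subset U.2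
    exact ⟨⟨V, hV⟩, fun a ha => (Set.ext_iff.1 h1 a⁻¹).1 (Set.inv_mem_inv.2 ha),
      fun a ha b hb => h2 (Set.mul_mem_mul ha hb)⟩
  choose f hf1 hf2 using h
  let V : ℕ → {U : Set G // U ∈ 𝓝 (1 : G)} := fun n =>
    Nat.rec (f ⟨N 0, hN 0⟩) (fun m W => f ⟨W.1 ∩ N (m + 1), inter_mem W.2 (hN _)⟩) n
  refine ⟨fun n => (V n).1, fun n => (V n).2, fun n => ?_, fun n => ?_, fun n a ha b hb => ?_⟩
  · cases n <;> exact hf1 _
  · cases n with
    | zero => exact hf2 _
    | succ m => exact fun a ha b hb => (hf2 _ a ha b hb).2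
  · exact (hf2 _ a ha b hb).1

lemma totally_bounded (h : SelectivelyPseudocompact G) {V : Set G} (hV : V ∈ 𝓝 (1 : G)) :
    ∃ F : Finset G, ∀ b, ∃ a ∈ F, a⁻¹ * b ∈ V := by
  by_contra hcon
  push Not at hcon
  obtain ⟨g, -, hg⟩ := exists_seq_of_forall_finset_exists (fun _ : G => True)
    (fun a b => a⁻¹ * b ∉ V) fun s _ => by
      obtain ⟨b, hb⟩ := hcon s
      exact ⟨b, trivial, hb⟩
  obtain ⟨W, hW, hi, hN, hm⟩ := exists_chain (fun _ => V) fun _ => hV
  obtain ⟨x, hx, y, hy⟩ := h (fun n => interior {b | (g n)⁻¹ * b ∈ W 1}) fun n =>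
    ⟨isOpen_interior, g n, mem_interior_iff_mem_nhds.2 (nhds_rel (hW 1) _)⟩
  have hfr := mapClusterPt_iff_frequently.1 hy _ (nhds_rel (hW 1) y)
  obtain ⟨l, hl⟩ := hfr.exists
  obtain ⟨n, hn, hln⟩ := (hfr.and_eventually (eventually_gt_atTop l)).exists
  refine hg l n hln ?_
  have h1 : (g l)⁻¹ * x l ∈ W 1 := (interior_subset (hx l) :)
  have h2 : (g n)⁻¹ * x n ∈ W 1 := (interior_subset (hx n) :)
  have := hN 0 _ (hm 0 _ h1 _ (hi 1 _ hl)) _ (hm 0 _ hn _ (hi 1 _ h2))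
  simpa [mul_assoc] using this

omit [Group G] [IsTopologicalGroup G] in
lemma selective_of_fin (h : ∀ k, SelectivelyPseudocompact (Fin k → G)) :
    SelectivelyPseudocompact G := by
  intro U hU
  obtain ⟨x, hx, y, hy⟩ := h 1 (fun n => {g | g 0 ∈ U n}) fun n =>
    ⟨(hU n).1.preimage (continuous_apply 0), fun _ => (hU n).2.choose, (hU n).2.choose_spec⟩
  exact ⟨fun n => x n 0, hx, y 0, hy.continuousAt_comp (continuous_apply 0).continuousAt⟩

lemma countable_family (h : ∀ k, SelectivelyPseudocompact (Fin k → G)) (U : ℕ → ℕ → Set G)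
    (hU : ∀ i n, IsOpen (U i n) ∧ (U i n).Nonempty) :
    ∃ x : ℕ → ℕ → G, (∀ n i, x n i ∈ U i n) ∧ ∃ y : ℕ → G, MapClusterPt y atTop x := by
  classical
  choose g hg using fun n i => (hU i n).2
  obtain ⟨V, hV, hi, hN, hm⟩ := exists_chain
    (fun n => ⋂ i ∈ Set.Iic n, {a | g n i * a ∈ U i n}) fun n =>
      (biInter_mem (Set.finite_Iic n)).2 fun i _ =>
        (continuous_const_mul (g n i)).continuousAt.preimage_mem_nhds
          (by simpa using (hU i n).1.mem_nhds (hg n i))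
  have hanti : Antitone V := antitone_nat_of_succ_le fun n a ha => by
    simpa using hm n a ha 1 (mem_of_mem_nhds (hV _))
  choose F hF using fun m => totally_bounded (selective_of_fin h) (hV m)
  have hcol : ∀ i m, ∃ a : G, ∀ᶠ n in (hyperfilter ℕ : Filter ℕ), a⁻¹ * g n i ∈ V m := by
    intro i m
    obtain ⟨a, -, ha⟩ := (Ultrafilter.eventually_exists_mem_iff (f := hyperfilter ℕ)
      (P := fun a n => a⁻¹ * g n i ∈ V m) (F m).finite_toSet).1
      (Eventually.of_forall fun n => hF m (g n i))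
    exact ⟨a, ha⟩
  choose c hc using hcol
  obtain ⟨φ, hφ, hφc⟩ := extraction_forall_of_frequently
    (P := fun k n => ∀ i ∈ Set.Iic k, ∀ m ∈ Set.Iic k, (c i m)⁻¹ * g n i ∈ V m) fun k => by
      have h1 : ∀ᶠ n in (hyperfilter ℕ : Filter ℕ),
          ∀ i ∈ Set.Iic k, ∀ m ∈ Set.Iic k, (c i m)⁻¹ * g n i ∈ V m :=
        (eventually_all_finite (Set.finite_Iic k)).2 fun i _ =>
          (eventually_all_finite (Set.finite_Iic k)).2 fun m _ => hc i m
      exact h1.frequently.filter_mono (hyperfilter_le_cofinite.trans Nat.cofinite_eq_atTop.le)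
  let ψ : ℕ × ℕ → ℕ := fun a => φ (Nat.pair a.1 a.2)
  have hψ : Function.Injective ψ := hφ.injective.comp Nat.pairEquiv.injective
  choose x hx y hy using fun j => h (j + 1)
    (fun l => {u | ∀ i : Fin (j + 1),
      u i ∈ interior {b | (g (ψ (j, l)) i)⁻¹ * b ∈ V (ψ (j, l))}}) fun l => ⟨by
        rw [Set.ofPred_forall]
        exact isOpen_iInter_of_finite fun i => isOpen_interior.preimage (continuous_apply i),
      fun i => g (ψ (j, l)) i, fun i => mem_interior_iff_mem_nhds.2 (nhds_rel (hV _) _)⟩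
  have hx' : ∀ j l (i : Fin (j + 1)), (g (ψ (j, l)) i)⁻¹ * x j l i ∈ V (ψ (j, l)) :=
    fun j l i => (interior_subset (hx j l i) :)
  have hyc : ∀ j (i : Fin (j + 1)) m, (c i (m + 2))⁻¹ * y j i ∈ V m := by
    intro j i m
    have h1 := mapClusterPt_iff_frequently.1
      ((hy j).continuousAt_comp (continuous_apply i).continuousAt) _ (nhds_rel (hV (m + 1)) (y j i))
    obtain ⟨l, hl, hl'⟩ := (h1.and_eventually (eventually_ge_atTop (m + 2))).exists
    have h2 : m + 2 ≤ Nat.pair j l := hl'.trans (Nat.right_le_pair j l)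
    have h3 := hφc (Nat.pair j l) i ((Nat.lt_succ_iff.1 i.2).trans (Nat.left_le_pair j l)) _ h2
    have h4 := hanti (h2.trans (hφ.id_le _)) (hx' j l i)
    have := hm m _ (hm (m + 1) _ h3 _ h4) _ (hi _ _ hl)
    simpa [mul_assoc, ψ] using this
  let b : ℕ → G := fun i => y i (Fin.last i)
  have hK : ∀ j (i : Fin (j + 1)) m, (y j i)⁻¹ * b i ∈ V m := by
    intro j i m
    have := hm m _ (hi _ _ (hyc j i (m + 1))) _ (hyc i (Fin.last i) (m + 1))
    simpa [mul_assoc, b] using this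
  let H : ℕ × ℕ → ℕ → G := fun a i =>
    if hi : i < a.1 + 1 then x a.1 a.2 ⟨i, hi⟩ * ((y a.1 ⟨i, hi⟩)⁻¹ * b i) else g (ψ a) i
  refine ⟨Function.extend ψ H g, fun n i => ?_, b, ?_⟩
  · by_cases hn : ∃ a, ψ a = n
    · obtain ⟨⟨j, l⟩, rfl⟩ := hn
      rw [hψ.extend_apply]
      simp only [H]
      split_ifs with hij
      · have h1 := hN _ _ (hx' j l ⟨i, hij⟩) _ (hK j ⟨i, hij⟩ (ψ (j, l)))
        have h2 : i ≤ ψ (j, l) :=
          ((Nat.lt_succ_iff.1 hij).trans (Nat.left_le_pair j l)).trans (hφ.id_le _)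
        simpa [mul_assoc] using Set.mem_iInter₂.1 h1 i h2
      · exact hg _ _
    · rw [Function.extend_apply' _ _ _ hn]
      exact hg _ _
  · rw [mapClusterPt_iff_frequently]
    intro s hs
    rw [nhds_pi, mem_pi] at hs
    obtain ⟨I, hI, t, ht, hts⟩ := hs
    obtain ⟨j, hj⟩ := hI.bddAbove
    have h1 : ∀ᶠ u in 𝓝 (y j), ∀ i : Fin (j + 1), u i * ((y j i)⁻¹ * b i) ∈ t i :=
      eventually_all.2 fun i =>
        ((continuous_apply i).mul continuous_const).continuousAt.preimage_mem_nhds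
          (by simpa using ht i)
    have h2 := (hy j).frequently h1
    rw [frequently_atTop] at h2 ⊢
    intro N
    obtain ⟨l, hl, hl'⟩ := h2 N
    refine ⟨ψ (j, l), (hl.trans (Nat.right_le_pair j l)).trans (hφ.id_le _), hts fun i hiI => ?_⟩
    have hij : i < j + 1 := Nat.lt_succ_of_le (hj hiI)
    rw [hψ.extend_apply]
    simp only [H]
    rw [dif_pos hij]
    exact hl' ⟨i, hij⟩

omit [IsTopologicalGroup G] in
lemma pow_of_family
    (h : ∀ U : ℕ → ℕ → Set G, (∀ i n, IsOpen (U i n) ∧ (U i n).Nonempty) →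
      ∃ p : Ultrafilter ℕ, (p : Filter ℕ) ≤ cofinite ∧ ∀ i, ∃ x : ℕ → G, (∀ n, x n ∈ U i n) ∧
        ∃ y : G, Tendsto x (p : Filter ℕ) (𝓝 y)) (ι : Type) :
    SelectivelyPseudocompact (ι → G) := by
  classical
  intro U hU
  choose g hg using fun n => (hU n).2
  choose I v hv hI using fun n => isOpen_pi_iff.1 (hU n).1 (g n) (hg n)
  obtain ⟨e, he⟩ := Set.countable_iff_exists_injOn.1
    (Set.countable_iUnion fun n => (I n).countable_toSet)
  obtain ⟨p, hp, hx⟩ := h (fun i n => if h : ∃ a ∈ I n, e a = i then v n h.choose else Set.univ)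
    fun i n => by
      split_ifs with h
      · exact ⟨(hv n _ h.choose_spec.1).1, _, (hv n _ h.choose_spec.1).2⟩
      · exact ⟨isOpen_univ, Set.univ_nonempty⟩
  choose x hx y hy using hx
  refine ⟨fun n a => x (e a) n, fun n => hI n fun a ha => ?_, fun a => y (e a), ?_⟩
  · have h1 : ∃ a' ∈ I n, e a' = e a := ⟨a, ha, rfl⟩
    have h2 := hx (e a) n
    rw [dif_pos h1, he (Set.mem_iUnion.2 ⟨n, h1.choose_spec.1⟩) (Set.mem_iUnion.2 ⟨n, ha⟩)
      h1.choose_spec.2] at h2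
    exact h2
  · exact (tendsto_pi_nhds.2 fun a => hy (e a)).mapClusterPt.mono
      (hp.trans Nat.cofinite_eq_atTop.le)

end Pool.Agent.MP_14ad8d_gt.Sq
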