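import Pool.Agent.MP_14ad8d_gt.Sq.WeakP

/-!
Selection of ultrafilters: continuum many finite families of injective sequences can be given free
ultrafilters so that any countably many of them are separated on large sets.
-/

open Filter Topology Cardinal

namespace Pool.Agent.MP_14ad8d_gt.Sq

/-- A free ultrafilter that is separated from every countable set of other free ultrafilters. -/
def WP {α : Type} (w : Ultrafilter α) : Prop :=
  (w : Filter α) ≤ cofinite ∧ ∀ Y : Set (Ultrafilter α), Y.Countable →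
    (∀ y ∈ Y, (y : Filter α) ≤ cofinite) → w ∉ Y → ∃ D ∈ w, ∀ y ∈ Y, D ∉ y

lemma WP.map {α β : Type} {w : Ultrafilter α} (hw : WP w) {f : α → β}
    (hf : Function.Injective f) : WP (w.map f) := by
  refine ⟨(map_mono hw.1).trans hf.tendsto_cofinite, fun Y hY hfree hn => ?_⟩
  have hinj : Function.Injective (Ultrafilter.map f) := fun a b h =>
    Ultrafilter.coe_injective (Filter.map_injective hf (congrArg Ultrafilter.toFilter h))
  obtain ⟨D, hD, hDy⟩ := hw.2 (Ultrafilter.map f ⁻¹' Y) (hY.preimage hinj) (fun y hy A hA => by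
    have h1 : (f '' Aᶜ)ᶜ ∈ Ultrafilter.map f y :=
      hfree _ hy (Set.Finite.compl_mem_cofinite ((mem_cofinite.1 hA).image f))
    have h2 : f ⁻¹' (f '' Aᶜ)ᶜ ∈ y := h1
    rwa [Set.preimage_compl, Set.preimage_image_eq _ hf, compl_compl] at h2) hn
  refine ⟨f '' D, image_mem_map hD, fun y hy hDy' => ?_⟩
  have hr : Set.range f ∈ y := mem_of_superset hDy' (Set.image_subset_range _ _)
  have e : Ultrafilter.map f (y.comap hf hr) = y :=
    Ultrafilter.coe_injective (map_comap_of_mem hr)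
  refine hDy (y.comap hf hr) (by simpa [e] using hy) ?_
  exact mem_comap.2 ⟨_, hDy', (Set.preimage_image_eq _ hf).le⟩

lemma exists_WP : ∃ w : Ultrafilter ℕ, WP w := by
  obtain ⟨w, hw, hy⟩ := exists_weakP_S
  obtain ⟨f, hf⟩ := exists_injective_nat S
  refine ⟨w.map f, WP.map ⟨hw, fun Y hY hfree hn => ?_⟩ hf⟩
  rcases Y.eq_empty_or_nonempty with rfl | hne
  · exact ⟨Set.univ, univ_mem, by simp⟩
  · obtain ⟨y, rfl⟩ := hY.exists_eq_range hne
    obtain ⟨D, hD, hDy⟩ := hy y (fun i => hfree _ ⟨i, rfl⟩) (fun i h => hn ⟨i, h⟩)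
    exact ⟨D, hD, by rintro _ ⟨i, rfl⟩; exact hDy i⟩

/-- The branch of the binary tree along a sequence, coded by natural numbers. -/
def br (a : T) (n : ℕ) : ℕ := Encodable.encode ((List.range n).map a)

lemma br_eq {a b : T} {n m : ℕ} (h : br a n = br b m) : n = m ∧ ∀ j < n, a j = b j := by
  have h1 : (List.range n).map a = (List.range m).map b := Encodable.encode_injective h
  have h2 : n = m := by simpa using congrArg List.length h1
  subst h2
  exact ⟨rfl, fun j hj => List.map_inj_left.1 h1 j (List.mem_range.2 hj)⟩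

lemma br_injective (a : T) : Function.Injective (br a) := fun _ _ h => (br_eq h).1

lemma map_br_injective {w : Ultrafilter ℕ} (hw : (w : Filter ℕ) ≤ cofinite) {g : ℕ → ℕ}
    (hg : Function.Injective g) : Function.Injective fun a : T => w.map (g ∘ br a) := by
  intro a b h
  funext j
  have h1 : Set.range (g ∘ br b) ∈ w.map (g ∘ br b) := range_mem_map
  have h2 : Set.range (g ∘ br b) ∈ w.map (g ∘ br a) := by
    have h' : w.map (g ∘ br a) = w.map (g ∘ br b) := h
    rwa [h']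
  have h3 : ∀ᶠ n in (w : Filter ℕ), (g ∘ br a) n ∈ Set.range (g ∘ br b) := h2
  have h4 : ∀ᶠ n in (w : Filter ℕ), j < n :=
    (hw.trans Nat.cofinite_eq_atTop.le) (eventually_gt_atTop j)
  obtain ⟨n, ⟨m, hm⟩, hn⟩ := (h3.and h4).exists
  exact (br_eq (hg hm).symm).2 j hn

lemma exists_choice_aux (W : Type) [LinearOrder W] [WellFoundedLT W]
    (hW : ∀ a : W, #(Set.Iio a) < #T) {β : Type} (R : W → T → Set β)
    (hR : ∀ s a, (R s a).Countable) (hR' : ∀ s x, {a | x ∈ R s a}.Countable) :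
    ∃ a : W → T, ∀ s s', s ≠ s' → Disjoint (R s (a s)) (R s' (a s')) := by
  classical
  have hstep : ∀ (s : W) (f : Set.Iio s → T), ∃ a : T, ∀ b : Set.Iio s,
      Disjoint (R s a) (R b.1 (f b)) := by
    intro s f
    obtain ⟨a, ha⟩ := exists_notMem (hW s)
      (fun b : Set.Iio s => ⋃ x ∈ R b.1 (f b), {a | x ∈ R s a})
      (fun b => (hR _ _).biUnion fun x _ => hR' s x)
    refine ⟨a, fun b => Set.disjoint_left.2 fun x hx hx' => ha ?_⟩
    exact Set.mem_iUnion.2 ⟨b, Set.mem_biUnion hx' hx⟩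
  choose st hst using hstep
  let g : W → T := (wellFounded_lt (α := W)).fix fun s ih => st s fun b => ih b.1 b.2
  have hg : ∀ s, g s = st s fun b => g b.1 := fun s => WellFounded.fix_eq _ _ s
  have hlt : ∀ s s', s' < s → Disjoint (R s (g s)) (R s' (g s')) := by
    intro s s' h
    rw [hg s]
    exact hst s (fun b => g b.1) ⟨s', h⟩
  refine ⟨g, fun s s' h => ?_⟩
  rcases lt_or_gt_of_ne h with h | h
  · exact (hlt _ _ h).symm
  · exact hlt _ _ h

lemma exists_select {ι : Type} (hι : #ι ≤ #T) {κ : Type} [Finite κ] (h : ι → κ → ℕ → ℕ)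
    (hh : ∀ s i, Function.Injective (h s i)) :
    ∃ q : ι → Ultrafilter ℕ, (∀ s, (q s : Filter ℕ) ≤ cofinite) ∧
      ∀ D : Set ι, D.Countable → ∃ N : ι → Set ℕ, (∀ s ∈ D, N s ∈ q s) ∧
        ∀ s ∈ D, ∀ s' ∈ D, s ≠ s' → ∀ m ∈ N s, ∀ m' ∈ N s', ∀ i j, h s i m ≠ h s' j m' := by
  classical
  obtain ⟨w, hw⟩ := exists_WP
  obtain ⟨i1, i2, hwo⟩ := exists_wo ι
  obtain ⟨a, ha⟩ := @exists_choice_aux ι i1 i2 (fun s => (hwo s).trans_le hι) (Ultrafilter ℕ)
    (fun s a => Set.range fun i => w.map (h s i ∘ br a)) (fun s a => Set.countable_range _)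
    (fun s x => by
      have : {a : T | x ∈ Set.range fun i => w.map (h s i ∘ br a)} =
          ⋃ i, (fun a : T => w.map (h s i ∘ br a)) ⁻¹' {x} := by
        ext a
        simp
      rw [this]
      exact Set.countable_iUnion fun i =>
        (Set.countable_singleton x).preimage (map_br_injective hw.1 (hh s i)))
  let r : ι → κ → Ultrafilter ℕ := fun s i => w.map (h s i ∘ br (a s))
  have hr : ∀ s i, WP (r s i) := fun s i => hw.map ((hh s i).comp (br_injective _))
  have hne : ∀ s s', s ≠ s' → ∀ i j, r s i ≠ r s' j := fun s s' hs i j e =>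
    Set.disjoint_left.1 (ha s s' hs) ⟨i, rfl⟩ ⟨j, e.symm⟩
  refine ⟨fun s => w.map (br (a s)), fun s => (hw.map (br_injective _)).1, fun D hD => ?_⟩
  obtain ⟨e, he⟩ := Set.countable_iff_exists_injOn.1 hD
  have hZ : ∀ s i, ∃ Z ∈ r s i, ∀ s' ∈ D, s' ≠ s → ∀ j, Z ∉ r s' j := by
    intro s i
    obtain ⟨Z, hZ, hZ'⟩ := (hr s i).2 (⋃ s' ∈ D \ {s}, Set.range (r s'))
      ((hD.mono Set.sdiff_subset).biUnion fun _ _ => Set.countable_range _)
      (fun y hy => by
        obtain ⟨s', -, j, rfl⟩ := Set.mem_iUnion₂.1 hy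
        exact (hr s' j).1)
      (fun hy => by
        obtain ⟨s', hs', j, e⟩ := Set.mem_iUnion₂.1 hy
        exact hne s' s hs'.2 j i e)
    exact ⟨Z, hZ, fun s' hs' hs j => hZ' _ (Set.mem_iUnion₂.2 ⟨s', ⟨hs', hs⟩, j, rfl⟩)⟩
  choose Z hZ hZ' using hZ
  let A : ι → Set ℕ := fun s => (⋃ i, Z s i) ∩ ⋂ s' ∈ {s' ∈ D | e s' < e s}, ⋂ j, (Z s' j)ᶜ
  have hA : ∀ s ∈ D, ∀ i, A s ∈ r s i := by
    intro s hs i
    have hfin : {s' ∈ D | e s' < e s}.Finite :=
      Set.Finite.of_finite_image ((Set.finite_lt_nat (e s)).subset (by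
        rintro _ ⟨s', hs', rfl⟩; exact hs'.2)) (he.mono fun _ h => h.1)
    refine inter_mem (mem_of_superset (hZ s i) (Set.subset_iUnion _ i))
      ((biInter_mem hfin).2 fun s' hs' => iInter_mem.2 fun j => ?_)
    exact Ultrafilter.compl_mem_iff_notMem.2
      (hZ' s' j s hs (fun h => absurd hs'.2 (by rw [h]; exact lt_irrefl _)) i)
  have hlt : ∀ s ∈ D, ∀ s' ∈ D, e s' < e s → ∀ x ∈ A s, x ∉ A s' := by
    intro s _ s' hs' hlt x hx hx'
    obtain ⟨j, hj⟩ := Set.mem_iUnion.1 hx'.1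
    exact Set.mem_iInter.1 (Set.mem_iInter₂.1 hx.2 s' ⟨hs', hlt⟩) j hj
  refine ⟨fun s => ⋂ i, h s i ⁻¹' A s, fun s hs => iInter_mem.2 fun i => hA s hs i,
    fun s hs s' hs' hss m hm m' hm' i j hij => ?_⟩
  have h1 : h s i m ∈ A s := Set.mem_iInter.1 hm i
  have h2 : h s' j m' ∈ A s' := Set.mem_iInter.1 hm' j
  rcases lt_or_gt_of_ne (fun h => hss (he hs hs' h)) with hl | hl
  · exact hlt s' hs' s hs hl _ h2 (hij ▸ h1)
  · exact hlt s hs s' hs' hl _ h1 (hij ▸ h2)

end Pool.Agent.MP_14ad8d_gt.Sq
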