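import Mathlib

/-!
Kunen's theorem: there is a weak P-point among the free ultrafilters on a countable set.
The proof uses Simon's independent linked family and a transfinite recursion of length continuum.
-/

open Filter Topology Cardinal

namespace Pool.Agent.MP_14ad8d_gt.Sq

/-- Binary sequences. -/
abbrev T : Type := ℕ → Bool

/-- The countable set carrying the linked family. -/
abbrev S : Type := Σ k : ℕ, ((Fin k → Bool) → Finset (Fin k → Bool))

/-- Restriction of a binary sequence. -/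
def res (k : ℕ) (X : T) : Fin k → Bool := fun i => X i

/-- The value of a point of `S` at a binary sequence. -/
def vl (s : S) (Y : T) : Finset (Fin s.1 → Bool) := s.2 (res s.1 Y)

/-- The filter of large levels. -/
def F0 : Filter S := comap Sigma.fst atTop

lemma res_inj (μ : Finset T) : ∀ᶠ k in atTop, ∀ X ∈ μ, ∀ Y ∈ μ, res k X = res k Y → X = Y := by
  rw [eventually_all_finset]
  intro X _
  rw [eventually_all_finset]
  intro Y _
  by_cases hxy : X = Y
  · exact Eventually.of_forall fun _ _ => hxy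
  · obtain ⟨j, hj⟩ := Function.ne_iff.1 hxy
    filter_upwards [eventually_gt_atTop j] with k hk h
    exact absurd (congrFun h ⟨j, hk⟩) hj

lemma F0_eq : F0 = cofinite := by
  apply le_antisymm
  · intro A hA
    obtain ⟨m, hm⟩ := (Set.Finite.image Sigma.fst (mem_cofinite.1 hA)).bddAbove
    refine mem_comap.2 ⟨Set.Ioi m, Ioi_mem_atTop m, fun s hs => ?_⟩
    by_contra h
    exact absurd (hm ⟨s, h, rfl⟩) (not_le.2 hs)
  · intro A hA
    obtain ⟨B, hB, hBA⟩ := mem_comap.1 hA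
    obtain ⟨m, hm⟩ := mem_atTop_sets.1 hB
    refine mem_cofinite.2 (Set.Finite.subset ((Set.finite_lt_nat m).biUnion
      (t := fun k => Set.range (Sigma.mk k : _ → S)) fun k _ => Set.finite_range _) ?_)
    intro s hs
    refine Set.mem_biUnion (x := s.1) ?_ ⟨s.2, rfl⟩
    by_contra h
    exact hs (hBA (hm _ (not_lt.1 h)))

/-- A basic condition. -/
def cond (μ : Finset T) (σ : T → Finset T) : Set S :=
  {s | ∀ Y ∈ μ, (vl s Y).card ≤ (σ Y).card ∧ ∀ X ∈ σ Y, res s.1 X ∈ vl s Y}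

/-- The family indexed by the complement of `U` is independent modulo `F`. -/
def Good (F : Filter S) (U : Set T) : Prop :=
  F ≤ F0 ∧ ∀ (μ : Finset T) (σ : T → Finset T), (∀ Y ∈ μ, Y ∉ U) → (F ⊓ 𝓟 (cond μ σ)).NeBot

lemma good_base : Good F0 ∅ := by
  classical
  refine ⟨le_rfl, fun μ σ _ => ?_⟩
  rw [inf_principal_neBot_iff]
  intro A hA
  obtain ⟨B, hB, hBA⟩ := mem_comap.1 hA
  obtain ⟨k, hk, hkB⟩ := ((res_inj μ).and hB).exists
  refine ⟨⟨k, fun w => if h : ∃ Y ∈ μ, res k Y = w then (σ h.choose).image (res k) else ∅⟩,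
    hBA hkB, fun Y hY => ?_⟩
  have h : ∃ Y' ∈ μ, res k Y' = res k Y := ⟨Y, hY, rfl⟩
  have e : h.choose = Y := hk _ h.choose_spec.1 _ hY h.choose_spec.2
  simp only [vl]
  rw [dif_pos h, e]
  exact ⟨Finset.card_image_le, fun X hX => Finset.mem_image_of_mem _ hX⟩

/-- The task given by the sequence `C` is done in the filter `F`. -/
def Done (F : Filter S) (C : ℕ → Set S) : Prop :=
  (∃ n, (⋂ i ∈ Set.Iic n, C i)ᶜ ∈ F) ∨ ∃ D : T → Set S, (∀ X, D X ∈ F) ∧
    ∀ y : Ultrafilter S, (y : Filter S) ≤ F0 → ∀ i, C i ∉ y → {X | D X ∈ y}.Finite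

lemma Done.mono {F F' : Filter S} {C : ℕ → Set S} (h : Done F C) (hle : F' ≤ F) : Done F' C := by
  rcases h with ⟨n, hn⟩ | ⟨D, hD, hy⟩
  · exact Or.inl ⟨n, hle hn⟩
  · exact Or.inr ⟨D, fun X => hle (hD X), hy⟩

lemma cond_union (μ μ' : Finset T) (σ σ' : T → Finset T) (h : ∀ Y ∈ μ', Y ∉ μ) :
    ∃ (ν : Finset T) (τ : T → Finset T), (∀ Y ∈ ν, Y ∈ μ ∨ Y ∈ μ') ∧
      cond ν τ ⊆ cond μ σ ∩ cond μ' σ' := by
  classical
  refine ⟨μ ∪ μ', fun Y => if Y ∈ μ then σ Y else σ' Y, fun Y hY => Finset.mem_union.1 hY,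
    fun s hs => ⟨fun Y hY => ?_, fun Y hY => ?_⟩⟩
  · simpa [hY] using hs Y (Finset.mem_union_left _ hY)
  · simpa [h Y hY] using hs Y (Finset.mem_union_right _ hY)

lemma step {F : Filter S} {U : Set T} (hG : Good F U) (hU : ∃ Y, Y ∉ U) (C : ℕ → Set S) :
    ∃ (F' : Filter S) (ν : Finset T), F' ≤ F ∧ Good F' (U ∪ ν) ∧ Done F' C := by
  classical
  by_cases h1 : ∀ (n : ℕ) (μ : Finset T) (σ : T → Finset T), (∀ Y ∈ μ, Y ∉ U) →
      (F ⊓ 𝓟 ((⋂ i ∈ Set.Iic n, C i) ∩ cond μ σ)).NeBot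
  · obtain ⟨Y₀, hY₀⟩ := hU
    let D : T → Set S := fun X =>
      {s | ∃ n, (vl s Y₀).card ≤ n ∧ res s.1 X ∈ vl s Y₀ ∧ s ∈ ⋂ i ∈ Set.Iic n, C i}
    refine ⟨F ⊓ ⨅ X, 𝓟 (D X), {Y₀}, inf_le_left, ⟨inf_le_left.trans hG.1, fun μ σ hμ => ?_⟩,
      Or.inr ⟨D, fun X => mem_inf_of_right (mem_iInf_of_mem X (mem_principal_self _)), ?_⟩⟩
    · rw [inf_principal_neBot_iff]
      intro A hA
      obtain ⟨B, hB, B', hB', rfl⟩ := mem_inf_iff.1 hA
      rw [mem_iInf_finite] at hB'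
      obtain ⟨σ₀, hσ₀⟩ := hB'
      rw [iInf_principal_finset, mem_principal] at hσ₀
      obtain ⟨ν, τ, hν, hντ⟩ := cond_union {Y₀} μ (fun _ => σ₀) σ
        (fun Y hY h => hμ Y hY (Or.inr h))
      have hne := h1 σ₀.card ν τ (fun Y hY => by
        rcases hν Y hY with h | h
        · rw [Finset.mem_singleton.1 h]; exact hY₀
        · exact fun h' => hμ Y h (Or.inl h'))
      rw [inf_principal_neBot_iff] at hne
      obtain ⟨s, hsB, hsC, hs⟩ := hne B hB
      obtain ⟨hs1, hs2⟩ := hντ hs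
      have := hs1 Y₀ (Finset.mem_singleton_self _)
      exact ⟨s, ⟨hsB, hσ₀ (Set.mem_iInter₂.2 fun X hX => ⟨σ₀.card, this.1, this.2 X hX, hsC⟩)⟩, hs2⟩
    · intro y hy i hi
      by_contra hinf
      obtain ⟨σ₀, hσ₀, hcard⟩ := Set.Infinite.exists_subset_card_eq hinf i
      have e1 : ∀ᶠ s in (y : Filter S), ∀ X ∈ σ₀, s ∈ D X :=
        (eventually_all_finset σ₀).2 fun X hX => hσ₀ hX
      have e2 : ∀ᶠ s in (y : Filter S), s ∉ C i := Ultrafilter.compl_mem_iff_notMem.2 hi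
      have e3 : ∀ᶠ s in (y : Filter S), ∀ X ∈ σ₀, ∀ Y ∈ σ₀, res s.1 X = res s.1 Y → X = Y :=
        hy (mem_comap.2 ⟨_, res_inj σ₀, fun s hs => hs⟩)
      obtain ⟨X₀, hX₀⟩ := Set.Infinite.nonempty hinf
      have e4 : ∀ᶠ s in (y : Filter S), s ∈ D X₀ := hX₀
      obtain ⟨s, ⟨⟨hs1, hs2⟩, hs3⟩, n, hn, -, hsn⟩ := (((e1.and e2).and e3).and e4).exists
      have hni : n < i := by
        by_contra h
        exact hs2 (Set.mem_iInter₂.1 hsn i (not_lt.1 h))
      have hle : σ₀.card ≤ (vl s Y₀).card := by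
        refine Finset.card_le_card_of_injOn (res s.1) (fun X hX => ?_) fun X hX Y hY h => hs3 X hX Y hY h
        obtain ⟨_, -, h, -⟩ := hs1 X hX
        exact h
      omega
  · push Not at h1
    obtain ⟨n, μ, σ, hμ, hbot⟩ := h1
    refine ⟨F ⊓ 𝓟 (cond μ σ), μ, inf_le_left, ⟨inf_le_left.trans hG.1, fun μ' σ' hμ' => ?_⟩,
      Or.inl ⟨n, ?_⟩⟩
    · obtain ⟨ν, τ, hν, hντ⟩ := cond_union μ μ' σ σ' (fun Y hY h => hμ' Y hY (Or.inr h))
      have := hG.2 ν τ (fun Y hY => by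
        rcases hν Y hY with h | h
        · exact hμ Y h
        · exact fun h' => hμ' Y h (Or.inl h'))
      rw [inf_assoc, inf_principal]
      exact this.mono (inf_le_inf_left _ (principal_mono.2 hντ))
    · rw [mem_inf_principal]
      rw [inf_principal_eq_bot] at hbot
      filter_upwards [hbot] with s hs h1 h2
      exact hs ⟨h2, h1⟩

lemma good_iInf {ι : Type} (f : ι → Filter S) (u : ι → Set T) (hd : Directed (· ≥ ·) f)
    (h : ∀ i, Good (f i) (u i)) : Good (F0 ⊓ ⨅ i, f i) (⋃ i, u i) := by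
  refine ⟨inf_le_left, fun μ σ hμ => ?_⟩
  cases isEmpty_or_nonempty ι with
  | inl hι => simpa [iInf_of_empty] using good_base.2 μ σ (by simp)
  | inr hι =>
    rw [inf_principal_neBot_iff]
    intro A hA
    obtain ⟨B, hB, B', hB', rfl⟩ := mem_inf_iff.1 hA
    obtain ⟨i, hi⟩ := (mem_iInf_of_directed hd _).1 hB'
    have := (h i).2 μ σ fun Y hY h' => hμ Y hY (Set.mem_iUnion.2 ⟨i, h'⟩)
    rw [inf_principal_neBot_iff] at this
    exact this _ (inter_mem ((h i).1 hB) hi)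

lemma card_tasks : #(ℕ → Set S) ≤ #T := by
  have h1 : #S ≤ ℵ₀ := mk_le_aleph0
  have h2 : #(Set S) ≤ 𝔠 := by
    rw [mk_set, ← two_power_aleph0]
    exact power_le_power_left two_ne_zero h1
  have h3 : #T = 𝔠 := by simp [T]
  rw [h3, ← power_def, mk_nat, ← continuum_power_aleph0]
  exact power_le_power_right h2

lemma exists_wo (α : Type) :
    ∃ (_ : LinearOrder α) (_ : WellFoundedLT α), ∀ a : α, #(Set.Iio a) < #α := by
  obtain ⟨i1, i2, hord⟩ := exists_ord_eq_type_lt α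
  exact ⟨i1, i2, fun a => mk_Iio_lt a hord⟩

lemma card_T : #T = 𝔠 := by simp [T]

lemma exists_notMem {ι : Type} (hι : #ι < #T) (u : ι → Set T) (hu : ∀ i, (u i).Countable) :
    ∃ Y, Y ∉ ⋃ i, u i := by
  by_contra h
  push Not at h
  have h1 : #(⋃ i, u i) = #T := by rw [Set.eq_univ_iff_forall.2 h, mk_univ]
  have h2 : #(⋃ i, u i) < #T := by
    have h3 : ⨆ i, #(u i) ≤ ℵ₀ := ciSup_le' fun i => (hu i).le_aleph0
    refine (mk_iUnion_le _).trans_lt (lt_of_le_of_lt (mul_le_mul_right h3 _) ?_)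
    exact mul_lt_of_lt (by rw [card_T]; exact aleph0_le_continuum) hι
      (by rw [card_T]; exact aleph0_lt_continuum)
  exact absurd h1 h2.ne

lemma exists_filter_aux (W : Type) [LinearOrder W] [WellFoundedLT W] (τ : W → ℕ → Set S)
    (hW : ∀ a : W, #(Set.Iio a) < #T) : ∃ F : Filter S, F.NeBot ∧ F ≤ F0 ∧ ∀ a, Done F (τ a) := by
  classical
  have hstep : ∀ (F : Filter S) (U : Set T) (C : ℕ → Set S), ∃ x : Filter S × Finset T,
      x.1 ≤ F ∧ (Good F U → (∃ Y, Y ∉ U) → Good x.1 (U ∪ x.2) ∧ Done x.1 C) := by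
    intro F U C
    by_cases h : Good F U ∧ ∃ Y, Y ∉ U
    · obtain ⟨F', ν, h1, h2, h3⟩ := step h.1 h.2 C
      exact ⟨(F', ν), h1, fun _ _ => ⟨h2, h3⟩⟩
    · exact ⟨(F, ∅), le_rfl, fun h1 h2 => absurd ⟨h1, h2⟩ h⟩
  choose st hst using hstep
  let g : W → Filter S × Finset T := (wellFounded_lt (α := W)).fix fun C ih =>
    st (F0 ⊓ ⨅ b : Set.Iio C, (ih b.1 b.2).1) (⋃ b : Set.Iio C, ((ih b.1 b.2).2 : Set T)) (τ C)
  have hg : ∀ C, g C =
      st (F0 ⊓ ⨅ b : Set.Iio C, (g b.1).1) (⋃ b : Set.Iio C, ((g b.1).2 : Set T)) (τ C) :=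
    fun C => WellFounded.fix_eq _ _ C
  have hmono : ∀ B C, B ≤ C → (g C).1 ≤ (g B).1 := by
    intro B C h
    rcases h.eq_or_lt with rfl | h
    · exact le_rfl
    · rw [hg C]
      exact (hst _ _ _).1.trans
        (inf_le_right.trans (iInf_le (fun b : Set.Iio C => (g b.1).1) ⟨B, h⟩))
  have hgood : ∀ C, Good (g C).1 (⋃ b : Set.Iic C, ((g b.1).2 : Set T)) ∧ Done (g C).1 (τ C) := by
    intro C
    induction C using WellFoundedLT.induction with
    | ind C ih =>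
      have h0 := good_iInf (fun b : Set.Iio C => (g b.1).1)
        (fun b : Set.Iio C => ⋃ a : Set.Iic b.1, ((g a.1).2 : Set T))
        (fun a b => by
          rcases le_total a.1 b.1 with h | h
          · exact ⟨b, hmono _ _ h, le_rfl⟩
          · exact ⟨a, le_rfl, hmono _ _ h⟩)
        (fun b => (ih b.1 b.2).1)
      have e1 : (⋃ b : Set.Iio C, ⋃ a : Set.Iic b.1, ((g a.1).2 : Set T)) =
          ⋃ b : Set.Iio C, ((g b.1).2 : Set T) := by
        ext Y
        simp only [Set.mem_iUnion]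
        constructor
        · rintro ⟨b, a, h⟩
          exact ⟨⟨a.1, lt_of_le_of_lt a.2 b.2⟩, h⟩
        · rintro ⟨b, h⟩
          exact ⟨b, ⟨b.1, le_refl b.1⟩, h⟩
      rw [e1] at h0
      have h1 := (hst _ _ (τ C)).2 h0
        (exists_notMem (hW C) _ fun b => (g b.1).2.countable_toSet)
      rw [← hg C] at h1
      refine ⟨⟨h1.1.1, fun μ σ hμ => h1.1.2 μ σ fun Y hY h => hμ Y hY ?_⟩, h1.2⟩
      rcases h with h | h
      · obtain ⟨b, hb⟩ := Set.mem_iUnion.1 h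
        exact Set.mem_iUnion.2 ⟨⟨b.1, le_of_lt b.2⟩, hb⟩
      · exact Set.mem_iUnion.2 ⟨⟨C, le_refl C⟩, h⟩
  have h0 := good_iInf (fun C => (g C).1) (fun C => ⋃ b : Set.Iic C, ((g b.1).2 : Set T))
    (fun a b => by
      rcases le_total a b with h | h
      · exact ⟨b, hmono _ _ h, le_rfl⟩
      · exact ⟨a, le_rfl, hmono _ _ h⟩)
    (fun C => (hgood C).1)
  refine ⟨_, (h0.2 ∅ (fun _ => ∅) (by simp)).mono inf_le_left, h0.1, fun C => (hgood C).2.mono ?_⟩
  exact inf_le_right.trans (iInf_le (fun C => (g C).1) C)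

lemma exists_filter : ∃ F : Filter S, F.NeBot ∧ F ≤ F0 ∧ ∀ C, Done F C := by
  obtain ⟨i1, i2, h⟩ := exists_wo (ℕ → Set S)
  exact @exists_filter_aux (ℕ → Set S) i1 i2 id fun a => (h a).trans_le card_tasks

/-- Kunen's theorem on `S`. -/
lemma exists_weakP_S : ∃ w : Ultrafilter S, (w : Filter S) ≤ cofinite ∧
    ∀ y : ℕ → Ultrafilter S, (∀ i, (y i : Filter S) ≤ cofinite) → (∀ i, y i ≠ w) →
      ∃ D ∈ w, ∀ i, D ∉ y i := by
  obtain ⟨F, hF, hF0, hD⟩ := exists_filter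
  refine ⟨Ultrafilter.of F, (Ultrafilter.of_le F).trans (hF0.trans F0_eq.le), fun y hy hne => ?_⟩
  have hC : ∀ i, ∃ C ∈ Ultrafilter.of F, C ∉ y i := by
    intro i
    by_contra h
    push Not at h
    exact hne i (Ultrafilter.eq_of_le (fun A hA => h A hA))
  choose C hC1 hC2 using hC
  rcases hD C with ⟨n, hn⟩ | ⟨D, hD1, hD2⟩
  · exact absurd ((biInter_mem (Set.finite_Iic n)).2 fun i _ => hC1 i)
      (Ultrafilter.compl_mem_iff_notMem.1 (Ultrafilter.of_le F hn))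
  · obtain ⟨X, hX⟩ := exists_notMem (ι := ℕ) (by rw [card_T, mk_nat]; exact aleph0_lt_continuum)
      (fun i => {X | D X ∈ y i})
      (fun i => (hD2 (y i) ((hy i).trans F0_eq.ge) i (hC2 i)).countable)
    exact ⟨D X, Ultrafilter.of_le F (hD1 X), fun i h => hX (Set.mem_iUnion.2 ⟨i, h⟩)⟩

end Pool.Agent.MP_14ad8d_gt.Sq
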